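import Mathlib

/-!
# MP_fda282_nt (helper59): the sum of `1 / r` over a set of primes of positive lower density
-/

set_option autoImplicit false

open Finset

namespace Pool.Agent.helper59.WA

/-- the primes of `S` up to `n` -/
noncomputable def PS (S : Set ℕ) (n : ℕ) : Finset ℕ :=
  open scoped Classical in (Icc 1 n).filter (fun p => p.Prime ∧ p ∈ S)

theorem mem_PS {S : Set ℕ} {n p : ℕ} : p ∈ PS S n ↔ p ≤ n ∧ p.Prime ∧ p ∈ S := by
  classical
  unfold PS
  rw [mem_filter, mem_Icc]
  constructor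
  · rintro ⟨⟨_, h1⟩, h2⟩
    exact ⟨h1, h2⟩
  · rintro ⟨h1, h2⟩
    exact ⟨⟨h2.1.one_le, h1⟩, h2⟩

theorem card_PS_le (S : Set ℕ) (n : ℕ) : (PS S n).card ≤ n := by
  classical
  unfold PS
  refine (Finset.card_filter_le _ _).trans ?_
  simp

theorem PS_mono (S : Set ℕ) {m n : ℕ} (h : m ≤ n) : PS S m ⊆ PS S n := by
  intro p hp
  rw [mem_PS] at hp ⊢
  exact ⟨hp.1.trans h, hp.2⟩

theorem card_PS_succ (S : Set ℕ) (n : ℕ) [Decidable ((n + 1).Prime ∧ n + 1 ∈ S)] :
    (PS S (n + 1)).card = (PS S n).card + (if (n + 1).Prime ∧ n + 1 ∈ S then 1 else 0) := by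
  classical
  split_ifs with h
  · have h1 : PS S (n + 1) = insert (n + 1) (PS S n) := by
      ext p
      rw [mem_insert, mem_PS, mem_PS]
      constructor
      · rintro ⟨h1, h2⟩
        rcases Nat.eq_or_lt_of_le h1 with h3 | h3
        · exact Or.inl h3
        · exact Or.inr ⟨by omega, h2⟩
      · rintro (rfl | ⟨h1, h2⟩)
        · exact ⟨le_rfl, h⟩
        · exact ⟨by omega, h2⟩
    rw [h1, Finset.card_insert_of_notMem]
    rw [mem_PS]
    rintro ⟨h2, _⟩
    omega
  · rw [add_zero]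
    congr 1
    ext p
    rw [mem_PS, mem_PS]
    constructor
    · rintro ⟨h1, h2⟩
      rcases Nat.eq_or_lt_of_le h1 with h3 | h3
      · rw [h3] at h2
        exact absurd h2 h
      · exact ⟨by omega, h2⟩
    · rintro ⟨h1, h2⟩
      exact ⟨by omega, h2⟩

theorem loglog_step {m : ℕ} (hm : 2 ≤ m) :
    Real.log (Real.log (m + 1)) - Real.log (Real.log m) ≤ 1 / (m * Real.log m) := by
  have hm' : (2 : ℝ) ≤ m := by exact_mod_cast hm
  have h0 : 0 < Real.log m := Real.log_pos (by linarith)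
  have h1 : 0 < Real.log (m + 1) := Real.log_pos (by linarith)
  rw [← Real.log_div h1.ne' h0.ne']
  have h2 := Real.log_le_sub_one_of_pos (div_pos h1 h0)
  have h3 : Real.log (m + 1) - Real.log m ≤ 1 / m := by
    rw [← Real.log_div (by positivity) (by positivity)]
    have h4 := Real.log_le_sub_one_of_pos (show (0 : ℝ) < ((m : ℝ) + 1) / m by positivity)
    have h5 : ((m : ℝ) + 1) / m - 1 = 1 / m := by field_simp; ring
    linarith
  calc Real.log (Real.log (m + 1) / Real.log m) ≤ Real.log (m + 1) / Real.log m - 1 := h2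
    _ = (Real.log (m + 1) - Real.log m) / Real.log m := by field_simp
    _ ≤ (1 / m) / Real.log m := by gcongr
    _ = 1 / (m * Real.log m) := by field_simp

theorem mert {S : Set ℕ} {c : ℝ} (hc : 0 ≤ c) {N₀ : ℕ} (h2 : 2 ≤ N₀)
    (hS : ∀ n ≥ N₀, c * n / Real.log n ≤ ((PS S n).card : ℝ)) {y : ℕ} (hy : N₀ ≤ y) {z : ℕ}
    (hyz : y ≤ z) : c / 2 * (Real.log (Real.log (z + 1)) - Real.log (Real.log (y + 1))) - 1 ≤
      ∑ r ∈ PS S z \ PS S y, 1 / (r : ℝ) := by
  classical
  have key : ((PS S z).card : ℝ) / (z + 1) - ((PS S y).card : ℝ) / (y + 1) +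
      c / 2 * (Real.log (Real.log (z + 1)) - Real.log (Real.log (y + 1))) ≤
      ∑ r ∈ PS S z \ PS S y, 1 / (r : ℝ) := by
    induction z, hyz using Nat.le_induction with
    | base => simp
    | succ z hz ih =>
      have hm2 : 2 ≤ z + 1 := by omega
      have hz0 : (0 : ℝ) < (z : ℝ) + 1 := by positivity
      have h3 := loglog_step hm2
      have h4 := hS (z + 1) (by omega)
      have h5 := card_PS_succ S z
      have hl : 0 < Real.log ((z + 1 : ℕ) : ℝ) :=
        Real.log_pos (by exact_mod_cast (by omega : 1 < z + 1))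
      have hsum : ∑ r ∈ PS S (z + 1) \ PS S y, 1 / (r : ℝ) = ∑ r ∈ PS S z \ PS S y, 1 / (r : ℝ) +
          (if (z + 1).Prime ∧ z + 1 ∈ S then 1 / ((z : ℝ) + 1) else 0) := by
        split_ifs with h
        · have h6 : PS S (z + 1) \ PS S y = insert (z + 1) (PS S z \ PS S y) := by
            ext p
            rw [mem_insert, mem_sdiff, mem_sdiff, mem_PS, mem_PS, mem_PS]
            constructor
            · rintro ⟨⟨h1, h2⟩, h3⟩
              rcases Nat.eq_or_lt_of_le h1 with h4 | h4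
              · exact Or.inl h4
              · exact Or.inr ⟨⟨by omega, h2⟩, h3⟩
            · rintro (rfl | ⟨⟨h1, h2⟩, h3⟩)
              · exact ⟨⟨le_rfl, h⟩, fun h7 => by omega⟩
              · exact ⟨⟨by omega, h2⟩, h3⟩
          rw [h6, Finset.sum_insert, add_comm]
          · push_cast
            rfl
          · rw [mem_sdiff, mem_PS]
            rintro ⟨⟨h7, _⟩, _⟩
            omega
        · rw [add_zero]
          congr 1
          ext p
          rw [mem_sdiff, mem_sdiff, mem_PS, mem_PS, mem_PS]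
          constructor
          · rintro ⟨⟨h1, h2⟩, h3⟩
            rcases Nat.eq_or_lt_of_le h1 with h4 | h4
            · rw [h4] at h2
              exact absurd h2 h
            · exact ⟨⟨by omega, h2⟩, h3⟩
          · rintro ⟨⟨h1, h2⟩, h3⟩
            exact ⟨⟨by omega, h2⟩, h3⟩
      rw [hsum]
      -- the increment
      obtain ⟨i, hi⟩ : ∃ i : ℝ, i = (if (z + 1).Prime ∧ z + 1 ∈ S then (1 : ℝ) else 0) := ⟨_, rfl⟩
      have hi2 : (if (z + 1).Prime ∧ z + 1 ∈ S then 1 / ((z : ℝ) + 1) else 0) =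
          i / ((z : ℝ) + 1) := by
        rw [hi]
        split_ifs <;> simp
      have h5' : ((PS S (z + 1)).card : ℝ) = (PS S z).card + i := by
        rw [h5, hi]
        push_cast
        rfl
      rw [hi2]
      have hinc : ((PS S (z + 1)).card : ℝ) / (((z + 1 : ℕ) : ℝ) + 1) -
          ((PS S z).card : ℝ) / ((z : ℝ) + 1) = i / ((z : ℝ) + 1) -
          ((PS S (z + 1)).card : ℝ) / (((z : ℝ) + 1) * (((z + 1 : ℕ) : ℝ) + 1)) := by
        rw [h5']
        push_cast
        field_simp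
        ring
      have hlow : c / 2 * (1 / (((z + 1 : ℕ) : ℝ) * Real.log ((z + 1 : ℕ) : ℝ))) ≤
          ((PS S (z + 1)).card : ℝ) / (((z : ℝ) + 1) * (((z + 1 : ℕ) : ℝ) + 1)) := by
        calc c / 2 * (1 / (((z + 1 : ℕ) : ℝ) * Real.log ((z + 1 : ℕ) : ℝ)))
            = (c * ((z + 1 : ℕ) : ℝ) / Real.log ((z + 1 : ℕ) : ℝ)) /
              (((z : ℝ) + 1) * (2 * ((z + 1 : ℕ) : ℝ))) := by
              push_cast
              push_cast at hl
              field_simp
          _ ≤ (c * ((z + 1 : ℕ) : ℝ) / Real.log ((z + 1 : ℕ) : ℝ)) /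
              (((z : ℝ) + 1) * (((z + 1 : ℕ) : ℝ) + 1)) := by
              have : 0 ≤ c * ((z + 1 : ℕ) : ℝ) / Real.log ((z + 1 : ℕ) : ℝ) := by positivity
              have h8 : (((z + 1 : ℕ) : ℝ) + 1) ≤ 2 * ((z + 1 : ℕ) : ℝ) := by
                push_cast
                have : (0 : ℝ) ≤ z := Nat.cast_nonneg _
                linarith
              gcongr
          _ ≤ _ := by gcongr
      have h9 : c / 2 * (Real.log (Real.log (((z + 1 : ℕ) : ℝ) + 1)) -
          Real.log (Real.log ((z + 1 : ℕ) : ℝ))) ≤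
          c / 2 * (1 / (((z + 1 : ℕ) : ℝ) * Real.log ((z + 1 : ℕ) : ℝ))) := by gcongr
      have h10 : Real.log (Real.log ((z + 1 : ℕ) : ℝ)) = Real.log (Real.log ((z : ℝ) + 1)) := by
        push_cast
        rfl
      rw [h10] at h9
      linarith
  have h3 : ((PS S y).card : ℝ) / (y + 1) ≤ 1 := by
    rw [div_le_one (by positivity)]
    have : ((PS S y).card : ℝ) ≤ y := by exact_mod_cast card_PS_le S y
    linarith
  have h4 : 0 ≤ ((PS S z).card : ℝ) / (z + 1) := by positivity
  linarith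

end Pool.Agent.helper59.WA
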