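import Pool.Agent.helper59.WA.SWfix
import Pool.Agent.helper59.WA.Mert
import Pool.Agent.helper24.BV.PNTerr
import Pool.Agent.helper10.BV.D1
import Pool.Agent.helper10.BV.D4
import Pool.Agent.helper10.BV.D16

/-!
# MP_fda282_nt (helper59): a lower bound for the number of primes in an arithmetic progression
-/

set_option autoImplicit false

open Finset ArithmeticFunction

namespace Pool.Agent.helper59.WA

open BVM

/-- orthogonality without the principal character (compare `D2` of helper10) -/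
private theorem orth {q a : ℕ} (hq : q ≠ 0) (ha : a.Coprime q) (n : ℕ) :
    (((if n ≡ a [MOD q] then (1 : ℝ) else 0)
      - (if n.Coprime q then 1 / (q.totient : ℝ) else 0) : ℝ) : ℂ)
      = (1 / (q.totient : ℂ)) * ∑ χ ∈ nonPrin q, χ ((a : ZMod q)⁻¹) * χ (n : ZMod q) := by
  classical
  have : NeZero q := ⟨hq⟩
  have hu : IsUnit (a : ZMod q) := (ZMod.isUnit_iff_coprime a q).2 ha
  have hset : nonPrin q = Finset.univ.erase (1 : DirichletCharacter ℂ q) := by
    ext χ
    rw [mem_nonPrin hq, Finset.mem_erase]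
    simp
  have htot : (q.totient : ℂ) ≠ 0 := by
    have : 0 < q.totient := Nat.totient_pos.2 (Nat.pos_of_ne_zero hq)
    exact_mod_cast this.ne'
  have h1 : (1 : DirichletCharacter ℂ q) ((a : ZMod q)⁻¹) = 1 := by
    have h2 : (1 : DirichletCharacter ℂ q) ((a : ZMod q)⁻¹ * (a : ZMod q)) = 1 := by
      rw [ZMod.inv_mul_of_unit _ hu, map_one]
    rw [map_mul, MulChar.one_apply hu, mul_one] at h2
    exact h2
  rw [hset, Finset.sum_erase_eq_sub (Finset.mem_univ _),
    DirichletCharacter.sum_char_inv_mul_char_eq ℂ hu, h1, one_mul, mul_sub]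
  have e1 : ((a : ZMod q) = (n : ZMod q)) ↔ n ≡ a [MOD q] := by
    rw [eq_comm]
    exact ZMod.natCast_eq_natCast_iff n a q
  by_cases hn : n.Coprime q
  · have h3 : (1 : DirichletCharacter ℂ q) (n : ZMod q) = 1 :=
      MulChar.one_apply ((ZMod.isUnit_iff_coprime n q).2 hn)
    rw [h3]
    by_cases hm : n ≡ a [MOD q]
    · rw [if_pos hm, if_pos hn, if_pos (e1.2 hm)]
      push_cast
      field_simp
    · rw [if_neg hm, if_pos hn, if_neg (fun h => hm (e1.1 h))]
      push_cast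
      ring
  · have h3 : (1 : DirichletCharacter ℂ q) (n : ZMod q) = 0 :=
      MulChar.map_nonunit _ (fun h => hn ((ZMod.isUnit_iff_coprime n q).1 h))
    rw [h3]
    have hm : ¬ n ≡ a [MOD q] := by
      intro hm
      apply hn
      have h4 : Nat.gcd n q = Nat.gcd a q := Nat.ModEq.gcd_eq hm
      rw [Nat.Coprime, h4]
      exact ha
    rw [if_neg hm, if_neg hn, if_neg (fun h => hm (e1.1 h))]
    simp

theorem abs_EE_le {q a : ℕ} (hq : q ≠ 0) (ha : a.Coprime q) (t : ℕ) :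
    |EE q a t| ≤ ∑ χ ∈ nonPrin q, ‖psiChi χ t‖ := by
  have hφ : (1 : ℝ) ≤ q.totient := by
    exact_mod_cast Nat.totient_pos.2 (Nat.pos_of_ne_zero hq)
  have h1 : ((EE q a t : ℝ) : ℂ) = (1 / (q.totient : ℂ)) *
      ∑ χ ∈ nonPrin q, χ ((a : ZMod q)⁻¹) * psiChi χ t := by
    unfold EE ee psiChi
    rw [Complex.ofReal_sum]
    simp_rw [Complex.ofReal_mul, orth hq ha]
    simp_rw [Finset.mul_sum]
    rw [Finset.sum_comm]
    refine Finset.sum_congr rfl (fun χ _ => Finset.sum_congr rfl (fun n _ => ?_))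
    ring
  have h2 : |EE q a t| = ‖((EE q a t : ℝ) : ℂ)‖ := by
    rw [Complex.norm_real, Real.norm_eq_abs]
  rw [h2, h1, norm_mul]
  have h3 : ‖(1 / (q.totient : ℂ))‖ ≤ 1 := by
    rw [norm_div, norm_one, Complex.norm_natCast]
    rw [div_le_one (by linarith)]
    exact hφ
  have h4 : ‖∑ χ ∈ nonPrin q, χ ((a : ZMod q)⁻¹) * psiChi χ t‖ ≤
      ∑ χ ∈ nonPrin q, ‖psiChi χ t‖ := by
    refine (norm_sum_le _ _).trans (Finset.sum_le_sum (fun χ _ => ?_))
    rw [norm_mul]
    calc ‖χ ((a : ZMod q)⁻¹)‖ * ‖psiChi χ t‖ ≤ 1 * ‖psiChi χ t‖ := by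
          gcongr
          exact DirichletCharacter.norm_le_one χ _
      _ = _ := one_mul _
  calc ‖(1 / (q.totient : ℂ))‖ * ‖∑ χ ∈ nonPrin q, χ ((a : ZMod q)⁻¹) * psiChi χ t‖
      ≤ 1 * ∑ χ ∈ nonPrin q, ‖psiChi χ t‖ := by gcongr
    _ = _ := one_mul _

theorem theta_lower {q a : ℕ} (hq : q ≠ 0) (ha : a.Coprime q) :
    ∃ K X : ℝ, ∀ t : ℕ, X ≤ t → t / q.totient - K * t / Real.log t -
      2 * Real.log q * Real.log t - 2 * √(t : ℝ) * Real.log t ≤ thetaAP q a t := by
  classical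
  have : NeZero q := ⟨hq⟩
  have h1 : ∀ χ : DirichletCharacter ℂ q, ∃ C x₀ : ℝ, χ ≠ 1 → (3 ≤ x₀ ∧ ∀ x : ℝ, x₀ ≤ x →
      ∀ y : ℕ, (y : ℝ) ≤ x → ‖psiChi χ y‖ ≤ C * x / Real.log x ^ 1) := by
    intro χ
    by_cases hχ : χ = 1
    · exact ⟨0, 0, fun h => absurd hχ h⟩
    · obtain ⟨C, x₀, h⟩ := SWfix 1 χ hχ
      exact ⟨C, x₀, fun _ => h⟩
  choose C X hCX using h1
  obtain ⟨C0, hC0⟩ := pnt_err 1
  refine ⟨∑ χ ∈ nonPrin q, C χ + C0, 3 + ∑ χ ∈ nonPrin q, |X χ|, fun t ht => ?_⟩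
  have hs0 : 0 ≤ ∑ χ ∈ nonPrin q, |X χ| := Finset.sum_nonneg (fun _ _ => abs_nonneg _)
  have ht3 : (3 : ℝ) ≤ t := by linarith
  have hE : |EE q a t| ≤ (∑ χ ∈ nonPrin q, C χ) * t / Real.log t := by
    refine (abs_EE_le hq ha t).trans ?_
    rw [Finset.sum_mul, Finset.sum_div]
    refine Finset.sum_le_sum (fun χ hχ => ?_)
    have h2 := (hCX χ ((mem_nonPrin hq χ).1 hχ)).2 t (by
      have h3 : X χ ≤ |X χ| := le_abs_self _
      have h4 : |X χ| ≤ ∑ χ ∈ nonPrin q, |X χ| :=
        Finset.single_le_sum (f := fun χ => |X χ|) (fun _ _ => abs_nonneg _) hχ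
      linarith) t le_rfl
    rw [pow_one] at h2
    exact h2
  have h2 := (psiAP_sub_thetaAP (q := q) (a := a) (le_refl t)).2
  have h3 := EE_eq q a t
  have h4 := abs_psiCop_sub_psi_le hq t
  have h5 := hC0 t ht3 t le_rfl
  rw [pow_one] at h5
  have hφ : (1 : ℝ) ≤ q.totient := by
    exact_mod_cast Nat.totient_pos.2 (Nat.pos_of_ne_zero hq)
  have h6 : (t : ℝ) - C0 * t / Real.log t - 2 * Real.log q * Real.log t ≤ psiCop q t := by
    have h7 := (abs_le.1 h4).1
    have h8 := (abs_le.1 h5).1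
    linarith
  have hlog : 0 < Real.log t := Real.log_pos (by linarith)
  have hA : 0 ≤ C0 * t / Real.log t := (abs_nonneg _).trans h5
  have hB : 0 ≤ 2 * Real.log q * Real.log t := (abs_nonneg _).trans h4
  have h9 : (t : ℝ) / q.totient - C0 * t / Real.log t - 2 * Real.log q * Real.log t ≤
      psiCop q t / q.totient := by
    have h10 : ((t : ℝ) - C0 * t / Real.log t - 2 * Real.log q * Real.log t) / q.totient ≤
        psiCop q t / q.totient := by gcongr
    have h11 : C0 * t / Real.log t / q.totient ≤ C0 * t / Real.log t := div_le_self hA hφ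
    have h12 : 2 * Real.log q * Real.log t / q.totient ≤ 2 * Real.log q * Real.log t :=
      div_le_self hB hφ
    rw [sub_div, sub_div] at h10
    linarith
  have h10 := (abs_le.1 hE).1
  have h11 : (∑ χ ∈ nonPrin q, C χ + C0) * t / Real.log t =
      (∑ χ ∈ nonPrin q, C χ) * t / Real.log t + C0 * t / Real.log t := by ring
  rw [h11]
  linarith

theorem ap_lower {d a : ℕ} (hd : d ≠ 0) (ha : a.Coprime d) :
    ∃ c : ℝ, 0 < c ∧ ∃ N₀ : ℕ, ∀ n : ℕ, N₀ ≤ n →
      c * n / Real.log n ≤ ((PS {p | p ≡ a [MOD d]} n).card : ℝ) := by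
  classical
  obtain ⟨K, X, hX⟩ := theta_lower hd ha
  have hφ : (0 : ℝ) < d.totient := by
    exact_mod_cast Nat.totient_pos.2 (Nat.pos_of_ne_zero hd)
  have ht1 : Filter.Tendsto (fun t : ℕ => K / Real.log t) Filter.atTop (nhds 0) :=
    (tendsto_const_nhds.div_atTop Real.tendsto_log_atTop).comp tendsto_natCast_atTop_atTop
  have ht2 : Filter.Tendsto (fun t : ℕ => 2 * Real.log d * (Real.log t / t)) Filter.atTop
      (nhds (2 * Real.log d * 0)) :=
    ((Real.isLittleO_log_id_atTop.tendsto_div_nhds_zero).comp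
      tendsto_natCast_atTop_atTop).const_mul _
  have ht3 : Filter.Tendsto (fun t : ℕ => 2 * (Real.log t / (t : ℝ) ^ (1 / 2 : ℝ))) Filter.atTop
      (nhds (2 * 0)) :=
    (((isLittleO_log_rpow_atTop (by norm_num : (0 : ℝ) < 1 / 2)).tendsto_div_nhds_zero).comp
      tendsto_natCast_atTop_atTop).const_mul _
  have ht := (ht1.add ht2).add ht3
  rw [mul_zero, mul_zero, add_zero, add_zero] at ht
  have hev := ht.eventually_le_const (u := 1 / (2 * (d.totient : ℝ))) (by positivity)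
  obtain ⟨N₁, hN₁⟩ := Filter.eventually_atTop.1 hev
  refine ⟨1 / (2 * d.totient), by positivity, max N₁ (max 3 ⌈X⌉₊), fun n hn => ?_⟩
  have hn1 : N₁ ≤ n := (le_max_left _ _).trans hn
  have hn3 : 3 ≤ n := (le_max_left _ _).trans ((le_max_right _ _).trans hn)
  have hnX : X ≤ n := by
    have h1 : ⌈X⌉₊ ≤ n := (le_max_right _ _).trans ((le_max_right _ _).trans hn)
    exact (Nat.le_ceil X).trans (by exact_mod_cast h1)
  have hn3' : (3 : ℝ) ≤ n := by exact_mod_cast hn3
  have hn0 : (0 : ℝ) < n := by linarith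
  have hlog : 0 < Real.log n := Real.log_pos (by linarith)
  have h1 := hX n hnX
  have h2 := hN₁ n hn1
  have h3 : (n : ℝ) / (2 * d.totient) ≤ thetaAP d a n := by
    refine le_trans ?_ h1
    have h4 : (n : ℝ) * (K / Real.log n + 2 * Real.log d * (Real.log n / n) +
        2 * (Real.log n / (n : ℝ) ^ (1 / 2 : ℝ))) ≤ n * (1 / (2 * d.totient)) := by gcongr
    have h5 : (n : ℝ) * (K / Real.log n + 2 * Real.log d * (Real.log n / n) +
        2 * (Real.log n / (n : ℝ) ^ (1 / 2 : ℝ))) =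
        K * n / Real.log n + 2 * Real.log d * Real.log n + 2 * √(n : ℝ) * Real.log n := by
      rw [← Real.sqrt_eq_rpow]
      have h6 : √(n : ℝ) ≠ 0 := (Real.sqrt_pos.2 hn0).ne'
      have h7 : (n : ℝ) = √(n : ℝ) * √(n : ℝ) := (Real.mul_self_sqrt hn0.le).symm
      have h8 : (n : ℝ) * (Real.log n / √(n : ℝ)) = √(n : ℝ) * Real.log n := by
        nth_rewrite 1 [h7]
        field_simp
      have h9 : (n : ℝ) * (Real.log n / n) = Real.log n := by field_simp
      calc (n : ℝ) * (K / Real.log n + 2 * Real.log d * (Real.log n / n) +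
            2 * (Real.log n / √(n : ℝ))) = K * n / Real.log n +
            2 * Real.log d * (n * (Real.log n / n)) + 2 * (n * (Real.log n / √(n : ℝ))) := by ring
        _ = _ := by rw [h8, h9]; ring
    rw [h5] at h4
    have h6 : (n : ℝ) / d.totient = n * (1 / (2 * d.totient)) + n / (2 * d.totient) := by
      field_simp
      ring
    rw [h6]
    linarith
  have h4 : thetaAP d a n ≤ ((PS {p | p ≡ a [MOD d]} n).card : ℝ) * Real.log n := by
    have h7 : (Icc 1 n).filter (fun p => p.Prime ∧ p ≡ a [MOD d]) =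
        PS {p | p ≡ a [MOD d]} n := by
      ext p
      rw [mem_filter, mem_Icc, mem_PS]
      constructor
      · rintro ⟨⟨_, k1⟩, k2, k3⟩
        exact ⟨k1, k2, k3⟩
      · rintro ⟨k1, k2, k3⟩
        exact ⟨⟨k2.one_le, k1⟩, k2, k3⟩
    unfold thetaAP
    rw [h7, ← nsmul_eq_mul]
    refine Finset.sum_le_card_nsmul _ (fun p : ℕ => Real.log p) (Real.log n) (fun p hp => ?_)
    rw [mem_PS] at hp
    exact Real.log_le_log (by exact_mod_cast hp.2.1.pos) (by exact_mod_cast hp.1)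
  rw [div_le_iff₀ hlog]
  calc 1 / (2 * (d.totient : ℝ)) * n = n / (2 * d.totient) := by ring
    _ ≤ _ := h3.trans h4

end Pool.Agent.helper59.WA
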