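import Pool.Agent.helper59.WA.Main
import Pool.Agent.helper59.WA.ChebAP
import Pool.Agent.helper10.BV.Final

/-!
# MP_fda282_nt (helper59): the Weil abscissa of `H_S`
-/

set_option autoImplicit false

open Finset

namespace Pool.Agent.helper59.WA

/-- The term of the prime power `p ^ j` (zero if `p` is not a prime or `j = 0`). -/
noncomputable def weilTerm (S : Set ℕ) (s : ℝ) (x : ℕ × ℕ) : ℝ :=
  open scoped Classical in
  if x.1.Prime ∧ 1 ≤ x.2 then
    (sPart S (x.1 ^ x.2 - 1) : ℝ) / (x.2 * (x.1 : ℝ) ^ (s * x.2)) else 0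

/-- The Weil abscissa of `H_S`, the infimum of the real `s` for which the double series of the
terms `(p ^ j - 1)_S / (j p ^ (s j))` over the primes `p` and `j ≥ 1` converges. -/
noncomputable def weilAbscissa (S : Set ℕ) : ℝ := sInf {s : ℝ | Summable (weilTerm S s)}

theorem weilTerm_nonneg (S : Set ℕ) (s : ℝ) (x : ℕ × ℕ) : 0 ≤ weilTerm S s x := by
  unfold weilTerm
  split_ifs
  · positivity
  · exact le_rfl

theorem summable_three (S : Set ℕ) : Summable (weilTerm S 3) := by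
  classical
  have h1 : Summable (fun p : ℕ => 1 / (p : ℝ) ^ 2) := Real.summable_one_div_nat_pow.2 (by norm_num)
  have h2 : Summable (fun j : ℕ => 4 * (1 / 4 : ℝ) ^ j) :=
    (summable_geometric_of_lt_one (by norm_num) (by norm_num)).mul_left 4
  have h3 : Summable (fun x : ℕ × ℕ => 1 / (x.1 : ℝ) ^ 2 * (4 * (1 / 4 : ℝ) ^ x.2)) :=
    h1.mul_of_nonneg h2 (fun _ => by positivity) (fun _ => by positivity)
  refine Summable.of_nonneg_of_le (weilTerm_nonneg S 3) (fun x => ?_) h3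
  unfold weilTerm
  split_ifs with h
  · obtain ⟨hp, hj⟩ := h
    obtain ⟨p, j⟩ := x
    dsimp only at hp hj ⊢
    have hp2 : (2 : ℝ) ≤ p := by exact_mod_cast hp.two_le
    have hj1 : (1 : ℝ) ≤ j := by exact_mod_cast hj
    have k0 : p ^ j - 1 ≠ 0 := by
      have : 1 < p ^ j := Nat.one_lt_pow (by omega) hp.one_lt
      omega
    have k1 : (sPart S (p ^ j - 1) : ℝ) ≤ (p : ℝ) ^ j := by
      have : sPart S (p ^ j - 1) ≤ p ^ j := (sPart_le k0).trans (Nat.sub_le _ _)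
      exact_mod_cast this
    have k2 : (p : ℝ) ^ ((3 : ℝ) * (j : ℝ)) = (p : ℝ) ^ (3 * j) := by
      rw [← Real.rpow_natCast]
      push_cast
      rfl
    rw [k2]
    obtain ⟨i, rfl⟩ : ∃ i, j = i + 1 := ⟨j - 1, by omega⟩
    calc (sPart S (p ^ (i + 1) - 1) : ℝ) / (((i + 1 : ℕ) : ℝ) * (p : ℝ) ^ (3 * (i + 1)))
        ≤ (p : ℝ) ^ (i + 1) / (1 * (p : ℝ) ^ (3 * (i + 1))) := by gcongr
      _ = 1 / (p : ℝ) ^ 2 * (1 / ((p : ℝ) ^ 2) ^ i) := by
          field_simp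
          ring
      _ ≤ 1 / (p : ℝ) ^ 2 * (1 / (4 : ℝ) ^ i) := by
          have k3 : (4 : ℝ) ≤ (p : ℝ) ^ 2 := by nlinarith
          gcongr
      _ = 1 / (p : ℝ) ^ 2 * (4 * (1 / 4) ^ (i + 1)) := by
          rw [one_div_pow, pow_succ (4 : ℝ) i]
          field_simp
  · positivity

/-- powers of the logarithm are smaller than powers -/
theorem ev_log (M : ℝ) (k : ℕ) {δ : ℝ} (hδ : 0 < δ) :
    ∀ᶠ x : ℕ in Filter.atTop, M * Real.log x ^ k ≤ (x : ℝ) ^ δ := by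
  have h1 := (isLittleO_log_rpow_rpow_atTop (k : ℝ) hδ).bound
    (show (0 : ℝ) < 1 / (|M| + 1) by positivity)
  have h2 := (tendsto_natCast_atTop_atTop (R := ℝ)).eventually h1
  filter_upwards [h2, Filter.eventually_ge_atTop 1] with x hx hx1
  have hx1' : (1 : ℝ) ≤ x := by exact_mod_cast hx1
  have hl : 0 ≤ Real.log x := Real.log_nonneg hx1'
  rw [Real.rpow_natCast, Real.norm_eq_abs, Real.norm_eq_abs, abs_of_nonneg (pow_nonneg hl k),
    abs_of_nonneg (Real.rpow_nonneg (by linarith) δ)] at hx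
  have h3 : (|M| + 1) * Real.log x ^ k ≤ (x : ℝ) ^ δ := by
    have h4 : (|M| + 1) * Real.log x ^ k ≤ (|M| + 1) * (1 / (|M| + 1) * (x : ℝ) ^ δ) := by gcongr
    have h5 : (|M| + 1) * (1 / (|M| + 1) * (x : ℝ) ^ δ) = (x : ℝ) ^ δ := by
      field_simp
    linarith
  refine le_trans ?_ h3
  gcongr
  have := le_abs_self M
  linarith

theorem big_sum {S : Set ℕ} {c : ℝ} (hc : 0 < c) {N₀ : ℕ}
    (hS : ∀ n ≥ N₀, c * n / Real.log n ≤ ((PS S n).card : ℝ)) :
    ∃ ε : ℝ, 0 < ε ∧ ∀ x₀ : ℕ, ∃ x : ℕ, x₀ ≤ x ∧ c / 16 * (x : ℝ) ^ (3 / 2 + ε) / Real.log x ^ 3 ≤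
      ∑ p ∈ (Icc 1 x).filter Nat.Prime, (sPart S (p - 1) : ℝ) := by
  obtain ⟨ε, hεd⟩ : ∃ ε : ℝ, ε = Real.exp (-(514 / c)) / 32 := ⟨_, rfl⟩
  have hε : 0 < ε := by rw [hεd]; positivity
  have hε' : ε ≤ 1 / 32 := by
    rw [hεd]
    have : Real.exp (-(514 / c)) ≤ 1 := by
      rw [Real.exp_le_one_iff]
      have : 0 < 514 / c := by positivity
      linarith
    linarith
  have hV : 514 / c ≤ Real.log (1 / (32 * ε)) := by
    rw [hεd]
    have h1 : 1 / (32 * (Real.exp (-(514 / c)) / 32)) = Real.exp (514 / c) := by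
      rw [Real.exp_neg]
      field_simp
    rw [h1, Real.log_exp]
  obtain ⟨B, C, hBV⟩ := BVM.bvInput 3
  refine ⟨ε, hε, fun x₀ => ?_⟩
  have e1 : ∀ᶠ x : ℕ in Filter.atTop, ((max 2 N₀ : ℕ) : ℝ) + 1 ≤ (x : ℝ) ^ (2 * ε) :=
    ((tendsto_rpow_atTop (by positivity : 0 < 2 * ε)).comp
      (tendsto_natCast_atTop_atTop (R := ℝ))).eventually_ge_atTop _
  have e2 := ev_log (2 / c) 1 (by positivity : 0 < ε / 2)
  have e3 := ev_log 1 B (by positivity : 0 < ε / 2)
  have e4 := ev_log 1920 4 (by positivity : 0 < 2 * ε)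
  have e5 := ev_log (64 / c) 2 (by norm_num : (0 : ℝ) < 3 / 16)
  have e6 : ∀ᶠ x : ℕ in Filter.atTop, |8 * C / c| + 1 ≤ Real.log x :=
    (Real.tendsto_log_atTop.comp (tendsto_natCast_atTop_atTop (R := ℝ))).eventually_ge_atTop _
  obtain ⟨X, hX⟩ := Filter.eventually_atTop.1 (e1.and (e2.and (e3.and (e4.and (e5.and e6)))))
  obtain ⟨x, hx, E, hE, hEs⟩ := hBV (max x₀ (max 3 X))
  have hx3 : 3 ≤ x := (le_max_left _ _).trans ((le_max_right _ _).trans hx)
  obtain ⟨f1, f2, f3, f4, f5, f6⟩ := hX x ((le_max_right _ _).trans ((le_max_right _ _).trans hx))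
  refine ⟨x, (le_max_left _ _).trans hx, ?_⟩
  have hS' : ∀ n ≥ max 2 N₀, c * n / Real.log n ≤ ((PS S n).card : ℝ) :=
    fun n hn => hS n ((le_max_right _ _).trans hn)
  refine core hc (le_max_left 2 N₀) hS' hε hε' hV hE hEs hx3 f1 ?_ (by simpa using f3) f4 ?_ ?_
  · rw [pow_one] at f2
    calc 2 * Real.log x = c * (2 / c * Real.log x) := by field_simp
      _ ≤ c * (x : ℝ) ^ (ε / 2) := by gcongr
  · calc 64 * Real.log x ^ 2 = c * (64 / c * Real.log x ^ 2) := by field_simp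
      _ ≤ c * (x : ℝ) ^ (3 / 16 : ℝ) := by gcongr
  · have g1 : 8 * C / c ≤ Real.log x := (le_abs_self _).trans (by linarith)
    have g2 : 1 ≤ Real.log x := by
      have := abs_nonneg (8 * C / c)
      linarith
    have g3 : 8 * C / c ≤ Real.log x ^ 2 := by nlinarith
    rw [div_le_iff₀ hc] at g3
    linarith

/-- **Theorem.**  If the lower relative density of `S` is positive then the Weil abscissa of
`H_S` is larger than `3 / 2`. -/
theorem abscissa_gt {S : Set ℕ} {c : ℝ} (hc : 0 < c) {N₀ : ℕ}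
    (hS : ∀ n ≥ N₀, c * n / Real.log n ≤ ((PS S n).card : ℝ)) : 3 / 2 < weilAbscissa S := by
  classical
  obtain ⟨ε, hε, hbig⟩ := big_sum hc hS
  have hmem : ∀ s ∈ {s : ℝ | Summable (weilTerm S s)}, 3 / 2 + ε / 2 ≤ s := by
    intro s hs
    by_contra hlt
    rw [not_le] at hlt
    have hs' : Summable (weilTerm S s) := hs
    obtain ⟨M, hM⟩ : ∃ M : ℝ, M = ∑' x, weilTerm S s x := ⟨_, rfl⟩
    obtain ⟨σ, hσ⟩ : ∃ σ : ℝ, σ = max s 0 := ⟨_, rfl⟩
    have hσ0 : 0 ≤ σ := by rw [hσ]; exact le_max_right _ _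
    have hσs : s ≤ σ := by rw [hσ]; exact le_max_left _ _
    have hσl : σ ≤ 3 / 2 + ε / 2 := by
      rw [hσ]
      exact max_le hlt.le (by linarith)
    have hM0 : 0 ≤ M := by
      rw [hM]
      exact tsum_nonneg (weilTerm_nonneg S s)
    obtain ⟨X, hX⟩ := Filter.eventually_atTop.1
      (ev_log (16 / c * M + 1) 3 (by positivity : 0 < ε / 2))
    obtain ⟨x, hx, hsum⟩ := hbig (max 3 X)
    have hx3 : (3 : ℝ) ≤ x := by exact_mod_cast (le_max_left _ _).trans hx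
    have hx0 : (0 : ℝ) < x := by linarith
    have hl : 0 < Real.log x := Real.log_pos (by linarith)
    have h1 := hX x ((le_max_right _ _).trans hx)
    have h2 : ∑ p ∈ (Icc 1 x).filter Nat.Prime, (sPart S (p - 1) : ℝ) ≤ (x : ℝ) ^ σ * M := by
      have h3 : ∀ p ∈ (Icc 1 x).filter Nat.Prime, (sPart S (p - 1) : ℝ) ≤
          (x : ℝ) ^ σ * weilTerm S s (p, 1) := by
        intro p hp
        rw [mem_filter, mem_Icc] at hp
        have hp1 : (1 : ℝ) ≤ p := by exact_mod_cast hp.1.1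
        have hpx : (p : ℝ) ≤ x := by exact_mod_cast hp.1.2
        unfold weilTerm
        rw [if_pos ⟨hp.2, le_rfl⟩]
        dsimp only
        rw [Nat.cast_one, one_mul, mul_one, pow_one]
        have h4 : (p : ℝ) ^ s ≤ (p : ℝ) ^ σ := Real.rpow_le_rpow_of_exponent_le hp1 hσs
        have h5 : (p : ℝ) ^ σ ≤ (x : ℝ) ^ σ := Real.rpow_le_rpow (by linarith) hpx hσ0
        have h6 : 0 < (p : ℝ) ^ s := by positivity
        rw [mul_div_assoc', le_div_iff₀ h6, mul_comm]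
        have h7 : (0 : ℝ) ≤ (sPart S (p - 1) : ℝ) := Nat.cast_nonneg _
        exact mul_le_mul_of_nonneg_right (h4.trans h5) h7
      refine (Finset.sum_le_sum h3).trans ?_
      rw [← Finset.mul_sum]
      have h4 : ∑ p ∈ (Icc 1 x).filter Nat.Prime, weilTerm S s (p, 1) ≤ M := by
        have h5 : ∑ p ∈ (Icc 1 x).filter Nat.Prime, weilTerm S s (p, 1) =
            ∑ y ∈ ((Icc 1 x).filter Nat.Prime).image (fun p => (p, 1)), weilTerm S s y := by
          rw [Finset.sum_image]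
          intro a _ b _ hab
          exact congrArg Prod.fst hab
        rw [h5, hM]
        exact hs'.sum_le_tsum _ (fun y _ => weilTerm_nonneg S s y)
      gcongr
    have h3 : c / 16 * (x : ℝ) ^ (3 / 2 + ε) / Real.log x ^ 3 ≤ (x : ℝ) ^ (3 / 2 + ε / 2) * M := by
      refine hsum.trans (h2.trans ?_)
      have : (x : ℝ) ^ σ ≤ (x : ℝ) ^ (3 / 2 + ε / 2) :=
        Real.rpow_le_rpow_of_exponent_le (by linarith) hσl
      gcongr
    have h4 : (x : ℝ) ^ (3 / 2 + ε) = (x : ℝ) ^ (3 / 2 + ε / 2) * (x : ℝ) ^ (ε / 2) := by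
      rw [← Real.rpow_add hx0]
      congr 1
      ring
    rw [h4, div_le_iff₀ (by positivity)] at h3
    have h5 : 0 < (x : ℝ) ^ (3 / 2 + ε / 2) := by positivity
    have h6 : (x : ℝ) ^ (3 / 2 + ε / 2) * (x : ℝ) ^ (ε / 2) ≤
        (x : ℝ) ^ (3 / 2 + ε / 2) * (16 / c * M * Real.log x ^ 3) := by
      calc (x : ℝ) ^ (3 / 2 + ε / 2) * (x : ℝ) ^ (ε / 2) =
            16 / c * (c / 16 * ((x : ℝ) ^ (3 / 2 + ε / 2) * (x : ℝ) ^ (ε / 2))) := by field_simp
        _ ≤ 16 / c * ((x : ℝ) ^ (3 / 2 + ε / 2) * M * Real.log x ^ 3) := by gcongr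
        _ = _ := by ring
    have h7 := le_of_mul_le_mul_left h6 h5
    have h8 : 0 < Real.log x ^ 3 := by positivity
    linarith
  have h1 : 3 / 2 + ε / 2 ≤ weilAbscissa S := le_csInf ⟨3, summable_three S⟩ hmem
  linarith

theorem PS_congr {S T : Set ℕ} (h : ∀ p : ℕ, p.Prime → (p ∈ S ↔ p ∈ T)) (n : ℕ) :
    PS S n = PS T n := by
  ext p
  rw [mem_PS, mem_PS]
  constructor
  · rintro ⟨h1, h2, h3⟩
    exact ⟨h1, h2, (h p h2).1 h3⟩
  · rintro ⟨h1, h2, h3⟩
    exact ⟨h1, h2, (h p h2).2 h3⟩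

/-- **Theorem.**  The Weil abscissa for the primes of a reduced residue class. -/
theorem abscissa_ap {d a : ℕ} (hd : d ≠ 0) (ha : a.Coprime d) :
    3 / 2 < weilAbscissa {p : ℕ | p.Prime ∧ p ≡ a [MOD d]} := by
  obtain ⟨c, hc, N₀, h⟩ := ap_lower hd ha
  refine abscissa_gt hc (N₀ := N₀) (fun n hn => ?_)
  have h1 : PS {p : ℕ | p.Prime ∧ p ≡ a [MOD d]} n = PS {p : ℕ | p ≡ a [MOD d]} n :=
    PS_congr (S := {p : ℕ | p.Prime ∧ p ≡ a [MOD d]}) (T := {p : ℕ | p ≡ a [MOD d]})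
      (fun _ hp => Iff.intro (fun h2 => h2.2) (fun h2 => And.intro hp h2)) n
  rw [h1]
  exact h n hn

end Pool.Agent.helper59.WA
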