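import Pool.Agent.helper59.WA.Lam

/-!
# MP_fda282_nt (helper59): counting in residue classes and the divisor sums of the sieve
-/

set_option autoImplicit false

open Finset Nat Real
open scoped ArithmeticFunction.Moebius

namespace Pool.Agent.helper59.WA

open Pool.Agent.helper91.BT

/-- the number of `n ≤ N` with `m ∣ n` and `e ∣ q n + 1` -/
noncomputable def cnt (q N m e : ℕ) : ℕ :=
  ((Ioc 0 N).filter (fun n => m ∣ n ∧ e ∣ q * n + 1)).card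

theorem cnt_coprime {q N m e : ℕ} (hm : 0 < m) (he : 0 < e) (hme : Nat.Coprime m e)
    (hqe : Nat.Coprime q e) : |(cnt q N m e : ℝ) - N / (m * e : ℕ)| ≤ 1 := by
  obtain ⟨u, hu⟩ : ∃ u, q * u ≡ 1 [MOD e] := by
    rcases Nat.eq_or_lt_of_le (Nat.succ_le_of_lt he) with h1 | h1
    · refine ⟨0, ?_⟩
      rw [← h1]
      exact Nat.modEq_one
    · obtain ⟨u, hu⟩ := Nat.exists_mul_mod_eq_one_of_coprime hqe h1
      refine ⟨u, ?_⟩
      rw [Nat.ModEq, hu.2, Nat.mod_eq_of_lt h1]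
  obtain ⟨t, ht1, ht2⟩ := Nat.chineseRemainder hme 0 u
  have hmt : m ∣ t := (Nat.modEq_zero_iff_dvd).1 ht1
  have hqt : q * t ≡ 1 [MOD e] := (Nat.ModEq.mul_left q ht2).trans hu
  have hiff : ∀ n, (m ∣ n ∧ e ∣ q * n + 1) ↔ m * e ∣ n + t := by
    intro n
    have h1 : m ∣ n ↔ m ∣ n + t := (Nat.dvd_add_left hmt).symm
    have h2 : e ∣ q * n + 1 ↔ e ∣ n + t := by
      have h3 : e ∣ n + t ↔ e ∣ q * (n + t) :=
        ⟨fun h => Dvd.dvd.mul_left h q, fun h => hqe.symm.dvd_of_dvd_mul_left h⟩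
      rw [h3, mul_add, ← Nat.modEq_zero_iff_dvd, ← Nat.modEq_zero_iff_dvd]
      exact ⟨fun h => (Nat.ModEq.add_left (q * n) hqt).trans h,
        fun h => (Nat.ModEq.add_left (q * n) hqt).symm.trans h⟩
    rw [h1, h2]
    constructor
    · rintro ⟨h4, h5⟩
      exact hme.mul_dvd_of_dvd_of_dvd h4 h5
    · intro h4
      exact ⟨(dvd_mul_right m e).trans h4, (dvd_mul_left e m).trans h4⟩
  have hcard : cnt q N m e = ((Ioc t (t + N)).filter (fun n => m * e ∣ n)).card := by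
    unfold cnt
    rw [Finset.filter_congr (fun n _ => hiff n)]
    refine Finset.card_bij (fun n _ => n + t) ?_ ?_ ?_
    · intro n hn
      simp only [mem_filter, mem_Ioc] at hn ⊢
      exact ⟨⟨by omega, by omega⟩, hn.2⟩
    · intro a _ b _ hab
      omega
    · intro b hb
      simp only [mem_filter, mem_Ioc] at hb
      refine ⟨b - t, ?_, by omega⟩
      simp only [mem_filter, mem_Ioc]
      refine ⟨⟨by omega, by omega⟩, ?_⟩
      rw [Nat.sub_add_cancel (by omega)]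
      exact hb.2
  rw [hcard]
  exact count_dvd t N (m * e) (Nat.mul_pos hm he)

theorem cnt_not_coprime {q N m e : ℕ} (h : ¬ Nat.Coprime m e) : cnt q N m e = 0 := by
  unfold cnt
  rw [Finset.card_eq_zero, Finset.filter_eq_empty_iff]
  rintro n _ ⟨h1, h2⟩
  obtain ⟨p, hp, hpm, hpe⟩ := Nat.Prime.not_coprime_iff_dvd.1 h
  have h3 : p ∣ q * n := Dvd.dvd.mul_left (hpm.trans h1) q
  have h4 : p ∣ 1 := (Nat.dvd_add_right h3).1 (hpe.trans h2)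
  exact hp.one_lt.ne' (Nat.dvd_one.1 h4)

/-- harmonic sum -/
noncomputable def Hs (z : ℕ) : ℝ := ∑ n ∈ Icc 1 z, 1 / (n : ℝ)

theorem Hs_nonneg (z : ℕ) : 0 ≤ Hs z := Finset.sum_nonneg (fun _ _ => by positivity)

theorem Hs_mono {y z : ℕ} (h : y ≤ z) : Hs y ≤ Hs z :=
  Finset.sum_le_sum_of_subset_of_nonneg (Finset.Icc_subset_Icc_right h) (fun _ _ _ => by positivity)

theorem Hs_dvd {r z : ℕ} (hr : 0 < r) :
    ∑ n ∈ (Icc 1 z).filter (fun n => r ∣ n), 1 / (n : ℝ) ≤ Hs z / r := by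
  have h1 : (Icc 1 z).filter (fun n => r ∣ n) ⊆ (Icc 1 z).image (fun n => r * n) := by
    intro n hn
    obtain ⟨hn1, m, rfl⟩ := mem_filter.1 hn
    rw [mem_Icc] at hn1
    refine mem_image.2 ⟨m, mem_Icc.2 ⟨?_, ?_⟩, rfl⟩
    · rcases Nat.eq_zero_or_pos m with h | h
      · rw [h, mul_zero] at hn1
        omega
      · exact h
    · exact (Nat.le_mul_of_pos_left m hr).trans hn1.2
  refine (Finset.sum_le_sum_of_subset_of_nonneg h1 (fun _ _ _ => by positivity)).trans ?_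
  rw [Finset.sum_image (fun a _ b _ hab => Nat.eq_of_mul_eq_mul_left hr hab), Hs, Finset.sum_div]
  refine le_of_eq (Finset.sum_congr rfl (fun n _ => ?_))
  push_cast
  rw [one_div, one_div, mul_inv, div_eq_inv_mul]

/-- The pairs whose least common multiple is divisible by the prime `r`. -/
theorem lcm_sum {r z : ℕ} (hr : r.Prime) :
    ∑ x ∈ (D z ×ˢ D z).filter (fun x => r ∣ Nat.lcm x.1 x.2), 1 / (Nat.lcm x.1 x.2 : ℝ) ≤
      3 * Hs z ^ 3 / r := by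
  classical
  obtain ⟨I, hI⟩ : ∃ I : Finset ℕ, I = Icc 1 z := ⟨_, rfl⟩
  obtain ⟨J, hJ⟩ : ∃ J : Finset ℕ, J = (Icc 1 z).filter (fun n => r ∣ n) := ⟨_, rfl⟩
  obtain ⟨f, hf⟩ : ∃ f : ℕ × ℕ → ℕ × ℕ × ℕ, ∀ x, f x =
    (Nat.gcd x.1 x.2, x.1 / Nat.gcd x.1 x.2, x.2 / Nat.gcd x.1 x.2) := ⟨_, fun _ => rfl⟩
  obtain ⟨g, hg⟩ : ∃ g : ℕ × ℕ × ℕ → ℝ, ∀ x, g x = 1 / (x.1 : ℝ) * (1 / x.2.1 * (1 / x.2.2)) :=
    ⟨_, fun _ => rfl⟩
  have hgn : ∀ x, 0 ≤ g x := by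
    intro x
    rw [hg]
    positivity
  have hlcm : ∀ x : ℕ × ℕ, 0 < x.1 → 0 < x.2 →
      Nat.lcm x.1 x.2 = (f x).1 * ((f x).2.1 * (f x).2.2) := by
    intro x h1 h2
    rw [hf]
    have h3 : 0 < Nat.gcd x.1 x.2 := Nat.gcd_pos_of_pos_left _ h1
    obtain ⟨a, ha⟩ := Nat.gcd_dvd_left x.1 x.2
    obtain ⟨b, hb⟩ := Nat.gcd_dvd_right x.1 x.2
    dsimp only
    have ha' : x.1 / Nat.gcd x.1 x.2 = a := Nat.div_eq_of_eq_mul_right h3 ha
    have hb' : x.2 / Nat.gcd x.1 x.2 = b := Nat.div_eq_of_eq_mul_right h3 hb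
    rw [ha', hb']
    have h4 := Nat.gcd_mul_lcm x.1 x.2
    apply Nat.eq_of_mul_eq_mul_left h3
    rw [h4]
    calc x.1 * x.2 = (Nat.gcd x.1 x.2 * a) * (Nat.gcd x.1 x.2 * b) := by rw [← ha, ← hb]
      _ = _ := by ring
  have hpos : ∀ x ∈ (D z ×ˢ D z).filter (fun x => r ∣ Nat.lcm x.1 x.2), 0 < x.1 ∧ 0 < x.2 ∧
      x.1 ≤ z ∧ x.2 ≤ z := by
    intro x hx
    obtain ⟨h1, h2⟩ := mem_product.1 (mem_filter.1 hx).1
    have h3 := (mem_D.1 h1).1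
    have h4 := (mem_D.1 h2).1
    exact ⟨h3.1, h4.1, h3.2, h4.2⟩
  have h1 : ∑ x ∈ (D z ×ˢ D z).filter (fun x => r ∣ Nat.lcm x.1 x.2), 1 / (Nat.lcm x.1 x.2 : ℝ) =
      ∑ x ∈ ((D z ×ˢ D z).filter (fun x => r ∣ Nat.lcm x.1 x.2)).image f, g x := by
    rw [Finset.sum_image]
    · refine Finset.sum_congr rfl (fun x hx => ?_)
      obtain ⟨k1, k2, _, _⟩ := hpos x hx
      rw [hlcm x k1 k2, hg]
      push_cast
      rw [one_div_mul_one_div, one_div_mul_one_div]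
    · intro x hx y hy hxy
      obtain ⟨k1, k2, _, _⟩ := hpos x (mem_coe.1 hx)
      obtain ⟨l1, l2, _, _⟩ := hpos y (mem_coe.1 hy)
      rw [hf, hf, Prod.mk.injEq, Prod.mk.injEq] at hxy
      obtain ⟨e1, e2, e3⟩ := hxy
      have a1 := Nat.div_mul_cancel (Nat.gcd_dvd_left x.1 x.2)
      have a2 := Nat.div_mul_cancel (Nat.gcd_dvd_right x.1 x.2)
      have a3 := Nat.div_mul_cancel (Nat.gcd_dvd_left y.1 y.2)
      have a4 := Nat.div_mul_cancel (Nat.gcd_dvd_right y.1 y.2)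
      refine Prod.ext ?_ ?_
      · rw [← a1, ← a3, e2, e1]
      · rw [← a2, ← a4, e3, e1]
  have hsub : ((D z ×ˢ D z).filter (fun x => r ∣ Nat.lcm x.1 x.2)).image f ⊆
      (J ×ˢ (I ×ˢ I)) ∪ ((I ×ˢ (J ×ˢ I)) ∪ (I ×ˢ (I ×ˢ J))) := by
    intro y hy
    obtain ⟨x, hx, rfl⟩ := mem_image.1 hy
    obtain ⟨k1, k2, k3, k4⟩ := hpos x hx
    have hr1 := (mem_filter.1 hx).2
    rw [hlcm x k1 k2] at hr1
    have m1 : (f x).1 ∈ I := by
      rw [hf, hI, mem_Icc]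
      exact ⟨Nat.gcd_pos_of_pos_left _ k1, (Nat.gcd_le_left _ k1).trans k3⟩
    have m2 : (f x).2.1 ∈ I := by
      rw [hf, hI, mem_Icc]
      exact ⟨Nat.div_pos (Nat.gcd_le_left _ k1) (Nat.gcd_pos_of_pos_left _ k1),
        (Nat.div_le_self _ _).trans k3⟩
    have m3 : (f x).2.2 ∈ I := by
      rw [hf, hI, mem_Icc]
      exact ⟨Nat.div_pos (Nat.gcd_le_right _ k2) (Nat.gcd_pos_of_pos_left _ k1),
        (Nat.div_le_self _ _).trans k4⟩
    have hJ' : ∀ n ∈ I, r ∣ n → n ∈ J := by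
      intro n hn hrn
      rw [hJ, mem_filter]
      exact ⟨by rwa [hI] at hn, hrn⟩
    rw [mem_union, mem_union, mem_product, mem_product, mem_product, mem_product, mem_product,
      mem_product]
    rcases (Nat.Prime.dvd_mul hr).1 hr1 with h | h
    · exact Or.inl ⟨hJ' _ m1 h, m2, m3⟩
    · rcases (Nat.Prime.dvd_mul hr).1 h with h | h
      · exact Or.inr (Or.inl ⟨m1, hJ' _ m2 h, m3⟩)
      · exact Or.inr (Or.inr ⟨m1, m2, hJ' _ m3 h⟩)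
  have hprod : ∀ A B C : Finset ℕ, ∑ x ∈ A ×ˢ (B ×ˢ C), g x =
      (∑ n ∈ A, 1 / (n : ℝ)) * ((∑ n ∈ B, 1 / (n : ℝ)) * (∑ n ∈ C, 1 / (n : ℝ))) := by
    intro A B C
    simp_rw [hg]
    rw [Finset.sum_product, Finset.sum_mul]
    refine Finset.sum_congr rfl (fun a _ => ?_)
    rw [Finset.sum_product, Finset.sum_mul, Finset.mul_sum]
    refine Finset.sum_congr rfl (fun b _ => ?_)
    rw [Finset.mul_sum, Finset.mul_sum]
  have hHI : ∑ n ∈ I, 1 / (n : ℝ) = Hs z := by rw [hI]; rfl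
  have hHJ : ∑ n ∈ J, 1 / (n : ℝ) ≤ Hs z / r := by rw [hJ]; exact Hs_dvd hr.pos
  have hH0 := Hs_nonneg z
  rw [h1]
  calc ∑ x ∈ ((D z ×ˢ D z).filter (fun x => r ∣ Nat.lcm x.1 x.2)).image f, g x
      ≤ ∑ x ∈ (J ×ˢ (I ×ˢ I)) ∪ ((I ×ˢ (J ×ˢ I)) ∪ (I ×ˢ (I ×ˢ J))), g x :=
        Finset.sum_le_sum_of_subset_of_nonneg hsub (fun x _ _ => hgn x)
    _ ≤ ∑ x ∈ J ×ˢ (I ×ˢ I), g x + (∑ x ∈ I ×ˢ (J ×ˢ I), g x + ∑ x ∈ I ×ˢ (I ×ˢ J), g x) := by
        have hu : ∀ A B : Finset (ℕ × ℕ × ℕ), ∑ x ∈ A ∪ B, g x ≤ ∑ x ∈ A, g x + ∑ x ∈ B, g x := by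
          intro A B
          rw [← Finset.sum_union_inter]
          have := Finset.sum_nonneg (fun x (_ : x ∈ A ∩ B) => hgn x)
          linarith
        exact (hu _ _).trans (by gcongr; exact hu _ _)
    _ = (∑ n ∈ J, 1 / (n : ℝ)) * Hs z ^ 2 * 3 := by
        rw [hprod, hprod, hprod, hHI]
        ring
    _ ≤ (Hs z / r) * Hs z ^ 2 * 3 := by gcongr
    _ = 3 * Hs z ^ 3 / r := by ring

end Pool.Agent.helper59.WA
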