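import Pool.Agent.helper59.WA.Turan
import Pool.Agent.helper59.WA.Mert
import Pool.Agent.helper31.BVM.Defs

/-!
# MP_fda282_nt (helper59): many primes `p` such that `p - 1` has a large `S`-part
-/

set_option autoImplicit false

open Finset

namespace Pool.Agent.helper59.WA

open Pool.Agent.helper91.BT

/-- The largest divisor of `n` all of whose prime factors lie in `S`. -/
noncomputable def sPart (S : Set ℕ) (n : ℕ) : ℕ :=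
  sSup {d : ℕ | d ∣ n ∧ ∀ p : ℕ, p.Prime → p ∣ d → p ∈ S}

theorem le_sPart {S : Set ℕ} {n d : ℕ} (hn : n ≠ 0) (hd : d ∣ n)
    (h : ∀ p : ℕ, p.Prime → p ∣ d → p ∈ S) : d ≤ sPart S n :=
  le_csSup ⟨n, fun _ hm => Nat.le_of_dvd (Nat.pos_of_ne_zero hn) hm.1⟩ ⟨hd, h⟩

theorem sPart_le {S : Set ℕ} {n : ℕ} (hn : n ≠ 0) : sPart S n ≤ n :=
  csSup_le ⟨1, one_dvd n, fun _ hp h => absurd (Nat.dvd_one.1 h) hp.one_lt.ne'⟩
    (fun _ hm => Nat.le_of_dvd (Nat.pos_of_ne_zero hn) hm.1)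

theorem one_le_sPart {S : Set ℕ} {n : ℕ} (hn : n ≠ 0) : 1 ≤ sPart S n :=
  le_sPart hn (one_dvd n) (fun _ hp h => absurd (Nat.dvd_one.1 h) hp.one_lt.ne')

/-- The sum over the sieving primes is large. -/
theorem R_sum {S : Set ℕ} {c ε : ℝ} {N₀ x : ℕ} (hc : 0 < c) (hN₀ : 2 ≤ N₀)
    (hS : ∀ n ≥ N₀, c * n / Real.log n ≤ ((PS S n).card : ℝ)) (hε : 0 < ε) (hε' : ε ≤ 1 / 32)
    (hV : 514 / c ≤ Real.log (1 / (32 * ε))) (hx : 3 ≤ x) (h1 : (N₀ : ℝ) + 1 ≤ (x : ℝ) ^ (2 * ε)) :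
    256 ≤ ∑ r ∈ PS S ⌊(x : ℝ) ^ (1 / 8 : ℝ)⌋₊ \ PS S ⌊(x : ℝ) ^ (2 * ε)⌋₊, 1 / (r : ℝ) := by
  have hx' : (3 : ℝ) ≤ x := by exact_mod_cast hx
  have hx0 : (0 : ℝ) < x := by linarith
  have hl : 0 < Real.log x := Real.log_pos (by linarith)
  have hN₀' : (2 : ℝ) ≤ N₀ := by exact_mod_cast hN₀
  have hy : N₀ ≤ ⌊(x : ℝ) ^ (2 * ε)⌋₊ := Nat.le_floor (by linarith)
  have hyz : ⌊(x : ℝ) ^ (2 * ε)⌋₊ ≤ ⌊(x : ℝ) ^ (1 / 8 : ℝ)⌋₊ :=
    Nat.floor_mono (Real.rpow_le_rpow_of_exponent_le (by linarith) (by linarith))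
  have h2 := mert hc.le hN₀ hS hy hyz
  have h3 : Real.log x / 8 ≤ Real.log ((⌊(x : ℝ) ^ (1 / 8 : ℝ)⌋₊ : ℝ) + 1) := by
    have h4 := Nat.lt_floor_add_one ((x : ℝ) ^ (1 / 8 : ℝ))
    have h5 : Real.log ((x : ℝ) ^ (1 / 8 : ℝ)) ≤
        Real.log ((⌊(x : ℝ) ^ (1 / 8 : ℝ)⌋₊ : ℝ) + 1) :=
      Real.log_le_log (by positivity) h4.le
    rw [Real.log_rpow hx0] at h5
    linarith
  have h4 : Real.log ((⌊(x : ℝ) ^ (2 * ε)⌋₊ : ℝ) + 1) ≤ 4 * ε * Real.log x := by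
    have h5 : (⌊(x : ℝ) ^ (2 * ε)⌋₊ : ℝ) ≤ (x : ℝ) ^ (2 * ε) := Nat.floor_le (by positivity)
    have h6 : (⌊(x : ℝ) ^ (2 * ε)⌋₊ : ℝ) + 1 ≤ (x : ℝ) ^ (4 * ε) := by
      have h7 : (x : ℝ) ^ (4 * ε) = (x : ℝ) ^ (2 * ε) * (x : ℝ) ^ (2 * ε) := by
        rw [← Real.rpow_add hx0]
        ring_nf
      rw [h7]
      nlinarith
    have h7 := Real.log_le_log (by positivity) h6
    rwa [Real.log_rpow hx0] at h7
  have h5 : 0 < Real.log ((⌊(x : ℝ) ^ (2 * ε)⌋₊ : ℝ) + 1) := by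
    apply Real.log_pos
    have : (N₀ : ℝ) ≤ (⌊(x : ℝ) ^ (2 * ε)⌋₊ : ℝ) := by exact_mod_cast hy
    linarith
  have h6 : Real.log (1 / (32 * ε)) ≤ Real.log (Real.log ((⌊(x : ℝ) ^ (1 / 8 : ℝ)⌋₊ : ℝ) + 1)) -
      Real.log (Real.log ((⌊(x : ℝ) ^ (2 * ε)⌋₊ : ℝ) + 1)) := by
    rw [← Real.log_div (by linarith) h5.ne']
    apply Real.log_le_log (by positivity)
    rw [div_le_div_iff₀ (by positivity) h5]
    calc 1 * Real.log ((⌊(x : ℝ) ^ (2 * ε)⌋₊ : ℝ) + 1) ≤ 4 * ε * Real.log x := by linarith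
      _ = Real.log x / 8 * (32 * ε) := by ring
      _ ≤ _ := by gcongr
  have h7 : c / 2 * (514 / c) ≤ c / 2 * (Real.log (Real.log ((⌊(x : ℝ) ^ (1 / 8 : ℝ)⌋₊ : ℝ) + 1)) -
      Real.log (Real.log ((⌊(x : ℝ) ^ (2 * ε)⌋₊ : ℝ) + 1))) := by
    have := hV.trans h6
    gcongr
  have h8 : c / 2 * (514 / c) = 257 := by field_simp; norm_num
  linarith

/-- The sum over the primes just below the square root. -/
theorem K_lower {S : Set ℕ} {c ε : ℝ} {N₀ x : ℕ} (hc : 0 < c) (hN₀ : 2 ≤ N₀)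
    (hS : ∀ n ≥ N₀, c * n / Real.log n ≤ ((PS S n).card : ℝ)) (hε : 0 < ε) (hε' : ε ≤ 1 / 32)
    (hx : 3 ≤ x) (h1 : (N₀ : ℝ) + 1 ≤ (x : ℝ) ^ (2 * ε))
    (h2 : 2 * Real.log x ≤ c * (x : ℝ) ^ (ε / 2)) :
    c / (2 * Real.log x) ≤ ∑ q ∈ PS S ⌊(x : ℝ) ^ (1 / 2 - ε / 2)⌋₊ \
      PS S ⌊(x : ℝ) ^ (1 / 2 - ε)⌋₊, 1 / (q : ℝ) := by
  classical
  have hx' : (3 : ℝ) ≤ x := by exact_mod_cast hx
  have hx0 : (0 : ℝ) < x := by linarith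
  have hl : 0 < Real.log x := Real.log_pos (by linarith)
  have hN₀' : (2 : ℝ) ≤ N₀ := by exact_mod_cast hN₀
  obtain ⟨a, ha⟩ : ∃ a : ℝ, a = (x : ℝ) ^ (1 / 2 - ε) := ⟨_, rfl⟩
  obtain ⟨b, hb⟩ : ∃ b : ℝ, b = (x : ℝ) ^ (1 / 2 - ε / 2) := ⟨_, rfl⟩
  rw [← ha, ← hb]
  have ha0 : 0 < a := by rw [ha]; positivity
  have hb0 : 0 < b := by rw [hb]; positivity
  have hbw : (x : ℝ) ^ (2 * ε) ≤ b := by
    rw [hb]
    exact Real.rpow_le_rpow_of_exponent_le (by linarith) (by linarith)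
  have hbN : N₀ ≤ ⌊b⌋₊ := Nat.le_floor (by linarith)
  have hbf : (⌊b⌋₊ : ℝ) ≤ b := Nat.floor_le hb0.le
  have hbf2 : b / 2 ≤ (⌊b⌋₊ : ℝ) := by
    have h3 := Nat.lt_floor_add_one b
    linarith
  have hfl0 : (0 : ℝ) < (⌊b⌋₊ : ℝ) := by linarith
  have h3 := hS _ hbN
  have hlogb : Real.log (⌊b⌋₊ : ℝ) ≤ Real.log x / 2 := by
    calc Real.log (⌊b⌋₊ : ℝ) ≤ Real.log b := Real.log_le_log hfl0 hbf
      _ = (1 / 2 - ε / 2) * Real.log x := by rw [hb, Real.log_rpow hx0]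
      _ ≤ Real.log x / 2 := by nlinarith
  have hlogb0 : 0 < Real.log (⌊b⌋₊ : ℝ) := by
    apply Real.log_pos
    have : (N₀ : ℝ) ≤ (⌊b⌋₊ : ℝ) := by exact_mod_cast hbN
    linarith
  have h4 : c * b / Real.log x ≤ ((PS S ⌊b⌋₊).card : ℝ) := by
    refine le_trans ?_ h3
    rw [div_le_div_iff₀ hl hlogb0]
    calc c * b * Real.log (⌊b⌋₊ : ℝ) ≤ c * b * (Real.log x / 2) := by gcongr
      _ = c * (b / 2) * Real.log x := by ring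
      _ ≤ c * (⌊b⌋₊ : ℝ) * Real.log x := by gcongr
  have h5 : ((PS S ⌊a⌋₊).card : ℝ) ≤ a :=
    (by exact_mod_cast card_PS_le S ⌊a⌋₊ : ((PS S ⌊a⌋₊).card : ℝ) ≤ (⌊a⌋₊ : ℝ)).trans
      (Nat.floor_le ha0.le)
  have h6 : c * b / Real.log x - a ≤ ((PS S ⌊b⌋₊ \ PS S ⌊a⌋₊).card : ℝ) := by
    have h7 : (PS S ⌊b⌋₊).card ≤ (PS S ⌊b⌋₊ \ PS S ⌊a⌋₊).card + (PS S ⌊a⌋₊).card := by
      have := Finset.le_card_sdiff (PS S ⌊a⌋₊) (PS S ⌊b⌋₊)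
      omega
    have h8 : ((PS S ⌊b⌋₊).card : ℝ) ≤
        (PS S ⌊b⌋₊ \ PS S ⌊a⌋₊).card + (PS S ⌊a⌋₊).card := by exact_mod_cast h7
    linarith
  have h7 : ((PS S ⌊b⌋₊ \ PS S ⌊a⌋₊).card : ℝ) * (1 / b) ≤
      ∑ q ∈ PS S ⌊b⌋₊ \ PS S ⌊a⌋₊, 1 / (q : ℝ) := by
    rw [← nsmul_eq_mul]
    refine Finset.card_nsmul_le_sum _ _ _ (fun q hq => ?_)
    have h8 := mem_PS.1 (mem_sdiff.1 hq).1
    have h9 : (q : ℝ) ≤ b := (by exact_mod_cast h8.1 : (q : ℝ) ≤ (⌊b⌋₊ : ℝ)).trans hbf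
    have h10 : (0 : ℝ) < q := by exact_mod_cast h8.2.1.pos
    gcongr
  refine le_trans ?_ h7
  have h8 : (c * b / Real.log x - a) * (1 / b) ≤
      ((PS S ⌊b⌋₊ \ PS S ⌊a⌋₊).card : ℝ) * (1 / b) := by gcongr
  refine le_trans ?_ h8
  have h9 : (c * b / Real.log x - a) * (1 / b) = c / Real.log x - a / b := by
    field_simp
  rw [h9]
  have h10 : a / b = 1 / (x : ℝ) ^ (ε / 2) := by
    rw [ha, hb, ← Real.rpow_sub hx0, one_div ((x : ℝ) ^ (ε / 2)), ← Real.rpow_neg hx0.le]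
    congr 1
    ring
  have h11 : a / b ≤ c / (2 * Real.log x) := by
    rw [h10, div_le_div_iff₀ (by positivity) (by positivity)]
    linarith
  have h12 : c / Real.log x = c / (2 * Real.log x) + c / (2 * Real.log x) := by
    field_simp
    ring
  linarith

theorem Hs_le_log {z : ℕ} {L : ℝ} (hL : 1 ≤ L) (hz : 1 ≤ z) (h : Real.log z ≤ L) :
    Hs z ≤ 2 * L := by
  have h1 := harmonic_le_one_add_log z
  rw [harmonic_eq_sum_Icc] at h1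
  push_cast at h1
  have h2 : Hs z = ∑ n ∈ Finset.Icc 1 z, ((n : ℝ))⁻¹ := by
    unfold Hs
    refine Finset.sum_congr rfl (fun n _ => ?_)
    rw [one_div]
  rw [h2]
  linarith

/-- The bad pairs: `q ∈ Q`, `p ≡ 1 mod q`, no `r ∈ R` divides `(p - 1) / q`. -/
theorem bad_sum {x : ℕ} {ε : ℝ} {Q R : Finset ℕ} {K : ℝ} (hε : 0 < ε) (hx : 3 ≤ x)
    (hQ : ∀ q ∈ Q, q.Prime ∧ (x : ℝ) ^ (1 / 32 : ℝ) < q) (hK : K = ∑ q ∈ Q, 1 / (q : ℝ))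
    (hQc : (Q.card : ℝ) ≤ (x : ℝ) ^ (1 / 2 : ℝ)) (hR : ∀ r ∈ R, r.Prime ∧ (x : ℝ) ^ (2 * ε) ≤ r)
    (hRc : (R.card : ℝ) ≤ (x : ℝ) ^ (1 / 8 : ℝ)) (hV : 256 ≤ ∑ r ∈ R, 1 / (r : ℝ))
    (h4 : 1920 * Real.log x ^ 4 ≤ (x : ℝ) ^ (2 * ε))
    (h5 : 64 * Real.log x ^ 2 * x ^ (13 / 16 : ℝ) ≤ 2 * Real.log x * K * x) :
    ∑ q ∈ Q, (((Ioc 0 (x / q)).filter (fun n => (q * n + 1).Prime ∧ ∀ r ∈ R, ¬ r ∣ n)).card : ℝ) ≤
      x * K / (2 * Real.log x) := by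
  have hx' : (3 : ℝ) ≤ x := by exact_mod_cast hx
  have hx0 : (0 : ℝ) < x := by linarith
  have hl : 0 < Real.log x := Real.log_pos (by linarith)
  have hl1 : 1 ≤ Real.log x := by
    rw [Real.le_log_iff_exp_le hx0]
    have := Real.exp_one_lt_d9
    linarith
  have hK0 : 0 ≤ K := by
    rw [hK]
    exact Finset.sum_nonneg (fun _ _ => by positivity)
  obtain ⟨t, ht⟩ : ∃ t : ℝ, t = (x : ℝ) ^ (1 / 32 : ℝ) := ⟨_, rfl⟩
  obtain ⟨z, hz⟩ : ∃ z : ℕ, z = ⌊t⌋₊ := ⟨_, rfl⟩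
  have ht1 : 1 ≤ t := by
    rw [ht]
    exact Real.one_le_rpow (by linarith) (by norm_num)
  have hz1 : 1 ≤ z := by
    rw [hz]
    exact Nat.le_floor (by simpa using ht1)
  have hzt : (z : ℝ) ≤ t := by
    rw [hz]
    exact Nat.floor_le (by linarith)
  have hzt2 : t < z + 1 := by
    rw [hz]
    exact Nat.lt_floor_add_one t
  have hlogt : Real.log t = Real.log x / 32 := by
    rw [ht, Real.log_rpow hx0]
    ring
  have hG : Real.log x / 64 ≤ G z := by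
    have h1 := G_ge_log z
    have h2 : Real.log t ≤ Real.log (z + 1) := Real.log_le_log (by linarith) hzt2.le
    linarith
  have hG0 : 0 < G z := by
    have : 0 < Real.log x / 64 := by positivity
    linarith
  have hH : Hs z ≤ 2 * Real.log x := by
    apply Hs_le_log hl1 hz1
    calc Real.log z ≤ Real.log t := Real.log_le_log (by exact_mod_cast hz1) hzt
      _ ≤ Real.log x := by rw [hlogt]; linarith
  have hH0 := Hs_nonneg z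
  obtain ⟨V, hVd⟩ : ∃ V : ℝ, V = ∑ r ∈ R, 1 / (r : ℝ) := ⟨_, rfl⟩
  rw [← hVd] at hV
  have hw : 0 < (x : ℝ) ^ (2 * ε) := by positivity
  have hterm : ∀ q ∈ Q,
      (((Ioc 0 (x / q)).filter (fun n => (q * n + 1).Prime ∧ ∀ r ∈ R, ¬ r ∣ n)).card : ℝ) ≤
      x * (1 / (q : ℝ)) * (1 / (4 * Real.log x)) + x * (1 / (q : ℝ)) * (1 / (8 * Real.log x)) +
        4 * (x : ℝ) ^ (5 / 16 : ℝ) := by
    intro q hq
    obtain ⟨hqp, hqt⟩ := hQ q hq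
    have hq0 : (0 : ℝ) < q := by exact_mod_cast hqp.pos
    rw [← ht] at hqt
    have hzq : z < q := by
      have : (z : ℝ) < q := lt_of_le_of_lt hzt hqt
      exact_mod_cast this
    have hN : ((x / q : ℕ) : ℝ) ≤ x * (1 / (q : ℝ)) := by
      rw [mul_one_div]
      exact Nat.cast_div_le
    have h1 := bad_le (N := x / q) hz1 hqp hzq hw hR hVd (by linarith)
    refine h1.trans ?_
    have hN0 : (0 : ℝ) ≤ ((x / q : ℕ) : ℝ) := Nat.cast_nonneg _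
    have g1 : ((x / q : ℕ) : ℝ) / (G z * V) ≤ x * (1 / (q : ℝ)) * (1 / (4 * Real.log x)) := by
      calc ((x / q : ℕ) : ℝ) / (G z * V) ≤ (x * (1 / (q : ℝ))) / (Real.log x / 64 * 256) := by
            gcongr
        _ = x * (1 / (q : ℝ)) * (1 / (4 * Real.log x)) := by
            field_simp
            ring
    have g2 : 30 * ((x / q : ℕ) : ℝ) * Hs z ^ 3 / (x : ℝ) ^ (2 * ε) ≤
        x * (1 / (q : ℝ)) * (1 / (8 * Real.log x)) := by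
      calc 30 * ((x / q : ℕ) : ℝ) * Hs z ^ 3 / (x : ℝ) ^ (2 * ε)
          ≤ 30 * (x * (1 / (q : ℝ))) * (2 * Real.log x) ^ 3 / (1920 * Real.log x ^ 4) := by
            gcongr
        _ = x * (1 / (q : ℝ)) * (1 / (8 * Real.log x)) := by
            field_simp
            ring
    have g3 : (z : ℝ) ^ 2 * (R.card + 1) ^ 2 ≤ 4 * (x : ℝ) ^ (5 / 16 : ℝ) := by
      have h2 : (1 : ℝ) ≤ (x : ℝ) ^ (1 / 8 : ℝ) := Real.one_le_rpow (by linarith) (by norm_num)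
      have h3 : (R.card : ℝ) + 1 ≤ 2 * (x : ℝ) ^ (1 / 8 : ℝ) := by linarith
      calc (z : ℝ) ^ 2 * (R.card + 1) ^ 2 ≤ t ^ 2 * (2 * (x : ℝ) ^ (1 / 8 : ℝ)) ^ 2 := by gcongr
        _ = 4 * (t ^ 2 * ((x : ℝ) ^ (1 / 8 : ℝ)) ^ 2) := by ring
        _ = 4 * (x : ℝ) ^ (5 / 16 : ℝ) := by
            rw [ht, ← Real.rpow_natCast, ← Real.rpow_natCast, ← Real.rpow_mul hx0.le,
              ← Real.rpow_mul hx0.le, ← Real.rpow_add hx0]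
            norm_num
    linarith
  refine (Finset.sum_le_sum hterm).trans ?_
  rw [Finset.sum_add_distrib, Finset.sum_add_distrib, ← Finset.sum_mul, ← Finset.sum_mul,
    ← Finset.mul_sum, ← hK, Finset.sum_const, nsmul_eq_mul]
  have h6 : (Q.card : ℝ) * (4 * (x : ℝ) ^ (5 / 16 : ℝ)) ≤ x * K / (8 * Real.log x) := by
    have h7 : (Q.card : ℝ) * (4 * (x : ℝ) ^ (5 / 16 : ℝ)) ≤ 4 * (x : ℝ) ^ (13 / 16 : ℝ) := by
      calc (Q.card : ℝ) * (4 * (x : ℝ) ^ (5 / 16 : ℝ))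
          ≤ (x : ℝ) ^ (1 / 2 : ℝ) * (4 * (x : ℝ) ^ (5 / 16 : ℝ)) := by gcongr
        _ = 4 * ((x : ℝ) ^ (1 / 2 : ℝ) * (x : ℝ) ^ (5 / 16 : ℝ)) := by ring
        _ = _ := by
            rw [← Real.rpow_add hx0]
            norm_num
    refine h7.trans ?_
    rw [le_div_iff₀ (by positivity)]
    have h8 : 2 * Real.log x * (4 * (x : ℝ) ^ (13 / 16 : ℝ) * (8 * Real.log x)) ≤
        2 * Real.log x * (x * K) := by
      calc 2 * Real.log x * (4 * (x : ℝ) ^ (13 / 16 : ℝ) * (8 * Real.log x)) =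
            64 * Real.log x ^ 2 * x ^ (13 / 16 : ℝ) := by ring
        _ ≤ 2 * Real.log x * K * x := h5
        _ = _ := by ring
    exact le_of_mul_le_mul_left h8 (by positivity)
  have h9 : x * K * (1 / (4 * Real.log x)) + x * K * (1 / (8 * Real.log x)) +
      x * K / (8 * Real.log x) = x * K / (2 * Real.log x) := by
    field_simp
    ring
  linarith

end Pool.Agent.helper59.WA
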