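import Pool.Agent.helper91.BrunTitchmarsh

/-!
# MP_fda282_nt (helper59): the Selberg weights are bounded by one

`lam z d` are the weights of Selberg's sieve of `Pool.Agent.helper91.BrunTitchmarsh`.
-/

set_option autoImplicit false

open Finset Nat Real
open scoped ArithmeticFunction.Moebius

namespace Pool.Agent.helper59.WA

open Pool.Agent.helper91.BT

theorem sum_inv_totient {d : ℕ} (hd : Squarefree d) :
    ∑ k ∈ d.divisors, 1 / (φ k : ℝ) = (d : ℝ) / φ d := by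
  have hd0 : d ≠ 0 := hd.ne_zero
  have h1 : ∀ k ∈ d.divisors, 1 / (φ k : ℝ) = (φ (d / k) : ℝ) / φ d := by
    intro k hk
    obtain ⟨e, rfl⟩ := (Nat.mem_divisors.1 hk).1
    have hk0 : 0 < k := Nat.pos_of_ne_zero (fun h => hd0 (by rw [h, zero_mul]))
    have he0 : 0 < e := Nat.pos_of_ne_zero (fun h => hd0 (by rw [h, mul_zero]))
    rw [Nat.mul_div_cancel_left e hk0]
    have hcop : Nat.Coprime k e := (Nat.squarefree_mul_iff.1 hd).1
    rw [Nat.totient_mul hcop]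
    have h2 : (φ k : ℝ) ≠ 0 := by exact_mod_cast (Nat.totient_pos.2 hk0).ne'
    have h3 : (φ e : ℝ) ≠ 0 := by exact_mod_cast (Nat.totient_pos.2 he0).ne'
    push_cast
    field_simp
  rw [Finset.sum_congr rfl h1, ← Finset.sum_div, Nat.sum_div_divisors d (fun k => (φ k : ℝ))]
  congr 1
  exact_mod_cast Nat.sum_totient d

theorem abs_lam_le_one {z d : ℕ} (hz : 1 ≤ z) (hd : d ∈ D z) : |lam z d| ≤ 1 := by
  classical
  have hG := G_pos hz
  obtain ⟨⟨hd1, hdz⟩, hdsq⟩ := mem_D.1 hd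
  have hφd : (0 : ℝ) < φ d := by exact_mod_cast Nat.totient_pos.2 hd1
  obtain ⟨M, hM⟩ : ∃ M : Finset ℕ, M = (Icc 1 z).filter (fun m => d * m ∈ D z) := ⟨_, rfl⟩
  have hmem : ∀ m, m ∈ M ↔ 1 ≤ m ∧ d * m ∈ D z := by
    intro m
    rw [hM, mem_filter, mem_Icc]
    constructor
    · rintro ⟨⟨h1, _⟩, h2⟩
      exact ⟨h1, h2⟩
    · rintro ⟨h1, h2⟩
      refine ⟨⟨h1, ?_⟩, h2⟩
      have h3 := (mem_D.1 h2).1.2
      have h4 : m ≤ d * m := Nat.le_mul_of_pos_left m hd1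
      omega
  have hcop : ∀ m ∈ M, Nat.Coprime d m := by
    intro m hm
    exact (Nat.squarefree_mul_iff.1 (mem_D.1 ((hmem m).1 hm).2).2).1
  have h1 : (D z).filter (fun δ => d ∣ δ) = M.image (fun m => d * m) := by
    ext δ
    rw [mem_filter, mem_image]
    constructor
    · rintro ⟨h2, m, rfl⟩
      refine ⟨m, (hmem m).2 ⟨?_, h2⟩, rfl⟩
      rcases Nat.eq_zero_or_pos m with h3 | h3
      · rw [h3, mul_zero] at h2
        have := (mem_D.1 h2).1.1
        omega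
      · exact h3
    · rintro ⟨m, hm, rfl⟩
      exact ⟨((hmem m).1 hm).2, dvd_mul_right _ _⟩
  have h2 : (d : ℝ) / φ d * ∑ m ∈ M, 1 / (φ m : ℝ) ≤ G z := by
    rw [← sum_inv_totient hdsq, Finset.sum_mul_sum, ← Finset.sum_product']
    have h3 : ∑ x ∈ d.divisors ×ˢ M, 1 / (φ x.1 : ℝ) * (1 / (φ x.2 : ℝ)) =
        ∑ δ ∈ (d.divisors ×ˢ M).image (fun x => x.1 * x.2), 1 / (φ δ : ℝ) := by
      rw [Finset.sum_image]
      · refine Finset.sum_congr rfl (fun x hx => ?_)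
        obtain ⟨hx1, hx2⟩ := mem_product.1 hx
        have h4 : Nat.Coprime x.1 x.2 :=
          Nat.Coprime.coprime_dvd_left (Nat.dvd_of_mem_divisors hx1) (hcop _ hx2)
        rw [Nat.totient_mul h4]
        push_cast
        rw [one_div_mul_one_div]
      · intro x hx y hy hxy
        obtain ⟨hx1, hx2⟩ := mem_product.1 (Finset.mem_coe.1 hx)
        obtain ⟨hy1, hy2⟩ := mem_product.1 (Finset.mem_coe.1 hy)
        have h4 : ∀ k m : ℕ, k ∣ d → Nat.Coprime d m → Nat.gcd d (k * m) = k := by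
          intro k m hk hm
          rw [Nat.Coprime.gcd_mul_right_cancel_right k hm.symm]
          exact Nat.gcd_eq_right hk
        have h5 := h4 x.1 x.2 (Nat.dvd_of_mem_divisors hx1) (hcop _ hx2)
        have h6 := h4 y.1 y.2 (Nat.dvd_of_mem_divisors hy1) (hcop _ hy2)
        dsimp only at hxy
        have h7 : x.1 = y.1 := by rw [← h5, ← h6, hxy]
        have h8 : 0 < x.1 := Nat.pos_of_mem_divisors hx1
        rw [← h7] at hxy
        exact Prod.ext h7 (Nat.eq_of_mul_eq_mul_left h8 hxy)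
    rw [h3]
    refine Finset.sum_le_sum_of_subset_of_nonneg ?_ (fun _ _ _ => by positivity)
    intro δ hδ
    obtain ⟨x, hx, rfl⟩ := mem_image.1 hδ
    obtain ⟨hx1, hx2⟩ := mem_product.1 hx
    exact D_of_dvd ((hmem _).1 hx2).2 (mul_dvd_mul_right (Nat.dvd_of_mem_divisors hx1) _)
  unfold lam
  rw [h1, Finset.sum_image (fun a _ b _ hab => Nat.eq_of_mul_eq_mul_left hd1 hab), abs_mul,
    Nat.abs_cast]
  have h3 : |∑ m ∈ M, (μ (d * m / d) : ℝ) * y z (d * m)| ≤
      1 / φ d / G z * ∑ m ∈ M, 1 / (φ m : ℝ) := by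
    rw [Finset.mul_sum]
    refine (Finset.abs_sum_le_sum_abs _ _).trans (Finset.sum_le_sum (fun m hm => ?_))
    have hm1 : 0 < m := ((hmem m).1 hm).1
    have hφm : (0 : ℝ) < φ m := by exact_mod_cast Nat.totient_pos.2 hm1
    rw [abs_mul, y, abs_div, abs_mul, Nat.abs_cast, abs_of_pos hG, Nat.totient_mul (hcop m hm)]
    push_cast
    have h4 := abs_mu_le_one (d * m / d)
    have h5 := abs_mu_le_one (d * m)
    calc |(μ (d * m / d) : ℝ)| * (|(μ (d * m) : ℝ)| / (φ d * φ m * G z))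
        ≤ 1 * (1 / (φ d * φ m * G z)) := by gcongr
      _ = 1 / φ d / G z * (1 / (φ m : ℝ)) := by field_simp
  calc (d : ℝ) * |∑ m ∈ M, (μ (d * m / d) : ℝ) * y z (d * m)|
      ≤ d * (1 / φ d / G z * ∑ m ∈ M, 1 / (φ m : ℝ)) := by gcongr
    _ = ((d : ℝ) / φ d * ∑ m ∈ M, 1 / (φ m : ℝ)) / G z := by field_simp
    _ ≤ G z / G z := by gcongr
    _ = 1 := div_self hG.ne'

end Pool.Agent.helper59.WA
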