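import Pool.Agent.helper59.WA.Core

/-!
# MP_fda282_nt (helper59): the main lower bound
-/

set_option autoImplicit false

open Finset

namespace Pool.Agent.helper59.WA

open Pool.Agent.helper91.BT

/-- the primes `p ≤ x`, `p ≡ 1 mod q` -/
noncomputable def Pq (x q : ℕ) : Finset ℕ :=
  (Finset.range (x + 1)).filter (fun p => p.Prime ∧ p ≡ 1 [MOD q])

theorem mem_Pq {x q p : ℕ} (hq : 1 < q) (hp : p ∈ Pq x q) :
    p ≤ x ∧ p.Prime ∧ q ∣ p - 1 ∧ 0 < (p - 1) / q ∧ p = q * ((p - 1) / q) + 1 := by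
  unfold Pq at hp
  rw [mem_filter, mem_range] at hp
  obtain ⟨h1, h2, h3⟩ := hp
  have h4 : q ∣ p - 1 := (Nat.modEq_iff_dvd' h2.one_le).1 h3.symm
  have h5 : q * ((p - 1) / q) = p - 1 := Nat.mul_div_cancel' h4
  have h6 := h2.one_lt
  refine ⟨by omega, h2, h4, ?_, by omega⟩
  rcases Nat.eq_zero_or_pos ((p - 1) / q) with h7 | h7
  · rw [h7, mul_zero] at h5
    omega
  · exact h7

theorem card_Pq {x q : ℕ} (hx : 3 ≤ x) (hq : 1 ≤ q) {e : ℝ}
    (h : |BVM.theta x q 1 - x / Nat.totient q| ≤ e) :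
    x * (1 / (q : ℝ)) - e ≤ Real.log x * ((Pq x q).card : ℝ) := by
  have hx' : (3 : ℝ) ≤ x := by exact_mod_cast hx
  have hx0 : (0 : ℝ) < x := by linarith
  have h1 : BVM.theta x q 1 ≤ Real.log x * ((Pq x q).card : ℝ) := by
    unfold BVM.theta Pq
    rw [mul_comm, ← nsmul_eq_mul]
    refine Finset.sum_le_card_nsmul _ (fun p : ℕ => Real.log p) (Real.log x) (fun p hp => ?_)
    rw [mem_filter, mem_range] at hp
    exact Real.log_le_log (by exact_mod_cast hp.2.1.pos)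
      (by exact_mod_cast (Nat.lt_succ_iff.1 hp.1))
  have h2 := (abs_le.1 h).1
  have h3 : x * (1 / (q : ℝ)) ≤ x / (Nat.totient q : ℝ) := by
    rw [mul_one_div]
    have h4 : (0 : ℝ) < Nat.totient q := by exact_mod_cast Nat.totient_pos.2 hq
    have h5 : (Nat.totient q : ℝ) ≤ q := by exact_mod_cast Nat.totient_le q
    gcongr
  linarith

/-- the number of prime factors is at most `2 log n` -/
theorem card_primeFactors_le {n x : ℕ} (hn : n ≠ 0) (hnx : n ≤ x) :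
    (n.primeFactors.card : ℝ) ≤ 2 * Real.log x := by
  have h1 : 2 ^ n.primeFactors.card ≤ n := by
    calc 2 ^ n.primeFactors.card = ∏ _p ∈ n.primeFactors, 2 := by rw [Finset.prod_const]
      _ ≤ ∏ p ∈ n.primeFactors, p :=
          Finset.prod_le_prod' (fun p hp => (Nat.prime_of_mem_primeFactors hp).two_le)
      _ ≤ n := Nat.le_of_dvd (Nat.pos_of_ne_zero hn) (Nat.prod_primeFactors_dvd n)
  have hn0 : (0 : ℝ) < n := by exact_mod_cast Nat.pos_of_ne_zero hn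
  have h2 : ((2 : ℝ)) ^ n.primeFactors.card ≤ x := by exact_mod_cast h1.trans hnx
  have h3 := Real.log_le_log (by positivity) h2
  rw [Real.log_pow] at h3
  have h4 := Real.log_two_gt_d9
  have h5 : (0 : ℝ) ≤ n.primeFactors.card := Nat.cast_nonneg _
  nlinarith

theorem core {S : Set ℕ} {c ε : ℝ} {N₀ x : ℕ} (hc : 0 < c) (hN₀ : 2 ≤ N₀)
    (hS : ∀ n ≥ N₀, c * n / Real.log n ≤ ((PS S n).card : ℝ)) (hε : 0 < ε) (hε' : ε ≤ 1 / 32)
    (hV : 514 / c ≤ Real.log (1 / (32 * ε))) {E : ℕ → ℝ} {B : ℕ} {C : ℝ}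
    (hE : ∀ y ≤ x, ∀ q, 1 ≤ q → ∀ a, Nat.Coprime a q →
      |BVM.theta y q a - y / Nat.totient q| ≤ E q)
    (hEs : ∑ q ∈ Finset.Icc 1 ⌊Real.sqrt x / Real.log x ^ B⌋₊, E q ≤ C * x / Real.log x ^ 3)
    (hx : 3 ≤ x) (h1 : (N₀ : ℝ) + 1 ≤ (x : ℝ) ^ (2 * ε))
    (h2 : 2 * Real.log x ≤ c * (x : ℝ) ^ (ε / 2)) (h3 : Real.log x ^ B ≤ (x : ℝ) ^ (ε / 2))
    (h4 : 1920 * Real.log x ^ 4 ≤ (x : ℝ) ^ (2 * ε))
    (h5 : 64 * Real.log x ^ 2 ≤ c * (x : ℝ) ^ (3 / 16 : ℝ))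
    (h6 : 8 * C ≤ c * Real.log x ^ 2) :
    c / 16 * (x : ℝ) ^ (3 / 2 + ε) / Real.log x ^ 3 ≤
      ∑ p ∈ (Icc 1 x).filter Nat.Prime, (sPart S (p - 1) : ℝ) := by
  classical
  have hx' : (3 : ℝ) ≤ x := by exact_mod_cast hx
  have hx0 : (0 : ℝ) < x := by linarith
  have hl : 0 < Real.log x := Real.log_pos (by linarith)
  obtain ⟨a, ha⟩ : ∃ a : ℝ, a = (x : ℝ) ^ (1 / 2 - ε) := ⟨_, rfl⟩
  obtain ⟨b, hb⟩ : ∃ b : ℝ, b = (x : ℝ) ^ (1 / 2 - ε / 2) := ⟨_, rfl⟩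
  obtain ⟨w, hw⟩ : ∃ w : ℝ, w = (x : ℝ) ^ (2 * ε) := ⟨_, rfl⟩
  have ha0 : 0 < a := by rw [ha]; positivity
  have hb0 : 0 < b := by rw [hb]; positivity
  have hw0 : 0 < w := by rw [hw]; positivity
  obtain ⟨Q, hQ⟩ : ∃ Q : Finset ℕ, Q = PS S ⌊b⌋₊ \ PS S ⌊a⌋₊ := ⟨_, rfl⟩
  obtain ⟨R, hR⟩ : ∃ R : Finset ℕ, R = PS S ⌊(x : ℝ) ^ (1 / 8 : ℝ)⌋₊ \ PS S ⌊w⌋₊ := ⟨_, rfl⟩
  obtain ⟨K, hK⟩ : ∃ K : ℝ, K = ∑ q ∈ Q, 1 / (q : ℝ) := ⟨_, rfl⟩
  have hVR : 256 ≤ ∑ r ∈ R, 1 / (r : ℝ) := by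
    rw [hR, hw]
    exact R_sum hc hN₀ hS hε hε' hV hx h1
  have hKl : c / (2 * Real.log x) ≤ K := by
    rw [hK, hQ, ha, hb]
    exact K_lower hc hN₀ hS hε hε' hx h1 h2
  have hK0 : 0 < K := lt_of_lt_of_le (by positivity) hKl
  have hQm : ∀ q ∈ Q, q.Prime ∧ q ∈ S ∧ a < q ∧ (q : ℝ) ≤ b := by
    intro q hq
    rw [hQ, mem_sdiff, mem_PS, mem_PS] at hq
    obtain ⟨⟨k1, k2, k3⟩, k4⟩ := hq
    refine ⟨k2, k3, ?_, ?_⟩
    · have k5 : ⌊a⌋₊ < q := by
        by_contra k6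
        exact k4 ⟨by omega, k2, k3⟩
      exact (Nat.floor_lt ha0.le).1 k5
    · exact (by exact_mod_cast k1 : (q : ℝ) ≤ (⌊b⌋₊ : ℝ)).trans (Nat.floor_le hb0.le)
  have hRm : ∀ r ∈ R, r.Prime ∧ r ∈ S ∧ w ≤ r := by
    intro r hr
    rw [hR, mem_sdiff, mem_PS, mem_PS] at hr
    obtain ⟨⟨k1, k2, k3⟩, k4⟩ := hr
    refine ⟨k2, k3, ?_⟩
    have k5 : ⌊w⌋₊ < r := by
      by_contra k6
      exact k4 ⟨by omega, k2, k3⟩
    exact ((Nat.floor_lt hw0.le).1 k5).le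
  have hta : (x : ℝ) ^ (1 / 32 : ℝ) ≤ a := by
    rw [ha]
    exact Real.rpow_le_rpow_of_exponent_le (by linarith) (by linarith)
  have hbx : b ≤ (x : ℝ) ^ (1 / 2 : ℝ) := by
    rw [hb]
    exact Real.rpow_le_rpow_of_exponent_le (by linarith) (by linarith)
  have hQc : (Q.card : ℝ) ≤ (x : ℝ) ^ (1 / 2 : ℝ) := by
    have k1 : Q.card ≤ ⌊b⌋₊ := by
      rw [hQ]
      exact (Finset.card_le_card Finset.sdiff_subset).trans (card_PS_le S _)
    exact ((by exact_mod_cast k1 : (Q.card : ℝ) ≤ (⌊b⌋₊ : ℝ)).trans (Nat.floor_le hb0.le)).trans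
      hbx
  have hRc : (R.card : ℝ) ≤ (x : ℝ) ^ (1 / 8 : ℝ) := by
    have k1 : R.card ≤ ⌊(x : ℝ) ^ (1 / 8 : ℝ)⌋₊ := by
      rw [hR]
      exact (Finset.card_le_card Finset.sdiff_subset).trans (card_PS_le S _)
    exact (by exact_mod_cast k1 : (R.card : ℝ) ≤ (⌊(x : ℝ) ^ (1 / 8 : ℝ)⌋₊ : ℝ)).trans
      (Nat.floor_le (by positivity))
  -- the bad pairs
  have hbad := bad_sum (x := x) (ε := ε) (Q := Q) (R := R) (K := K) hε hx
    (fun q hq => ⟨(hQm q hq).1, lt_of_le_of_lt hta (hQm q hq).2.2.1⟩) hK hQc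
    (fun r hr => ⟨(hRm r hr).1, by rw [← hw]; exact (hRm r hr).2.2⟩) hRc hVR h4
    (by
      have k1 : c ≤ 2 * Real.log x * K := by
        rw [div_le_iff₀ (by positivity)] at hKl
        linarith
      have k2 : (x : ℝ) ^ (3 / 16 : ℝ) * (x : ℝ) ^ (13 / 16 : ℝ) = x := by
        rw [← Real.rpow_add hx0]
        norm_num
      calc 64 * Real.log x ^ 2 * (x : ℝ) ^ (13 / 16 : ℝ)
          ≤ c * (x : ℝ) ^ (3 / 16 : ℝ) * (x : ℝ) ^ (13 / 16 : ℝ) := by gcongr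
        _ = c * x := by rw [mul_assoc, k2]
        _ ≤ 2 * Real.log x * K * x := by gcongr)
  -- all pairs
  have hbQ : b ≤ Real.sqrt x / Real.log x ^ B := by
    rw [le_div_iff₀ (by positivity)]
    calc b * Real.log x ^ B ≤ b * (x : ℝ) ^ (ε / 2) := by gcongr
      _ = Real.sqrt x := by
          rw [hb, ← Real.rpow_add hx0, Real.sqrt_eq_rpow]
          congr 1
          ring
  have hEn : ∀ q, 1 ≤ q → 0 ≤ E q := fun q hq =>
    (abs_nonneg _).trans (hE x le_rfl q hq 1 (Nat.coprime_one_left q))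
  have hEQ : ∑ q ∈ Q, E q ≤ C * x / Real.log x ^ 3 := by
    refine le_trans (Finset.sum_le_sum_of_subset_of_nonneg ?_ ?_) hEs
    · intro q hq
      obtain ⟨k1, _, _, k2⟩ := hQm q hq
      rw [mem_Icc]
      exact ⟨k1.one_le, Nat.le_floor (k2.trans hbQ)⟩
    · intro q hq _
      exact hEn q (mem_Icc.1 hq).1
  have hall : x * K - C * x / Real.log x ^ 3 ≤ Real.log x * ∑ q ∈ Q, ((Pq x q).card : ℝ) := by
    have k1 : ∑ q ∈ Q, (x * (1 / (q : ℝ)) - E q) ≤ ∑ q ∈ Q, Real.log x * ((Pq x q).card : ℝ) :=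
      Finset.sum_le_sum (fun q hq => card_Pq hx (hQm q hq).1.one_le
        (hE x le_rfl q (hQm q hq).1.one_le 1 (Nat.coprime_one_left q)))
    rw [Finset.sum_sub_distrib, ← Finset.mul_sum, ← Finset.mul_sum, ← hK] at k1
    linarith
  -- good pairs
  obtain ⟨Gd, hGd⟩ : ∃ Gd : ℕ → Finset ℕ, ∀ q, Gd q =
    (Pq x q).filter (fun p => ∃ r ∈ R, r ∣ (p - 1) / q) := ⟨_, fun _ => rfl⟩
  have hsplit : ∀ q ∈ Q, ((Pq x q).card : ℝ) ≤ ((Gd q).card : ℝ) +
      (((Ioc 0 (x / q)).filter (fun n => (q * n + 1).Prime ∧ ∀ r ∈ R, ¬ r ∣ n)).card : ℝ) := by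
    intro q hq
    have hq1 := (hQm q hq).1.one_lt
    have k1 : (Pq x q).card = (Gd q).card +
        ((Pq x q).filter (fun p => ¬ ∃ r ∈ R, r ∣ (p - 1) / q)).card := by
      rw [hGd, Finset.card_filter_add_card_filter_not]
    have k2 : ((Pq x q).filter (fun p => ¬ ∃ r ∈ R, r ∣ (p - 1) / q)).card ≤
        ((Ioc 0 (x / q)).filter (fun n => (q * n + 1).Prime ∧ ∀ r ∈ R, ¬ r ∣ n)).card := by
      refine Finset.card_le_card_of_injOn (fun p => (p - 1) / q) ?_ ?_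
      · intro p hp
        obtain ⟨hp1, hp2⟩ := mem_filter.1 (mem_coe.1 hp)
        obtain ⟨m1, m2, m3, m4, m5⟩ := mem_Pq hq1 hp1
        rw [mem_coe, mem_filter, mem_Ioc]
        refine ⟨⟨m4, Nat.div_le_div_right (by omega)⟩, by rw [← m5]; exact m2, ?_⟩
        intro r hr hrd
        exact hp2 ⟨r, hr, hrd⟩
      · intro p hp p' hp' he
        obtain ⟨_, _, _, _, m5⟩ := mem_Pq hq1 (mem_filter.1 (mem_coe.1 hp)).1
        obtain ⟨_, _, _, _, m5'⟩ := mem_Pq hq1 (mem_filter.1 (mem_coe.1 hp')).1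
        dsimp only at he
        rw [m5, m5', he]
    rw [k1]
    push_cast
    have k3 : (((Pq x q).filter (fun p => ¬ ∃ r ∈ R, r ∣ (p - 1) / q)).card : ℝ) ≤
        (((Ioc 0 (x / q)).filter (fun n => (q * n + 1).Prime ∧ ∀ r ∈ R, ¬ r ∣ n)).card : ℝ) := by
      exact_mod_cast k2
    linarith
  have hgood : c * x / (8 * Real.log x ^ 2) ≤ ∑ q ∈ Q, ((Gd q).card : ℝ) := by
    have k1 : ∑ q ∈ Q, ((Pq x q).card : ℝ) ≤ ∑ q ∈ Q, ((Gd q).card : ℝ) +
        x * K / (2 * Real.log x) := by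
      refine (Finset.sum_le_sum hsplit).trans ?_
      rw [Finset.sum_add_distrib]
      linarith
    have k2 : (x * K - C * x / Real.log x ^ 3) / Real.log x ≤ ∑ q ∈ Q, ((Pq x q).card : ℝ) := by
      rw [div_le_iff₀ hl]
      linarith
    have k3 : C * x / Real.log x ^ 3 ≤ x * K / 4 := by
      have k4 : 4 * C / Real.log x ^ 3 ≤ K := by
        refine le_trans ?_ hKl
        rw [div_le_div_iff₀ (by positivity) (by positivity)]
        calc 4 * C * (2 * Real.log x) = 8 * C * Real.log x := by ring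
          _ ≤ c * Real.log x ^ 2 * Real.log x := by gcongr
          _ = c * Real.log x ^ 3 := by ring
      calc C * x / Real.log x ^ 3 = x * (4 * C / Real.log x ^ 3) / 4 := by ring
        _ ≤ x * K / 4 := by gcongr
    have k5 : x * K / (4 * Real.log x) ≤ ∑ q ∈ Q, ((Gd q).card : ℝ) := by
      have k6 : (x * K - x * K / 4) / Real.log x ≤ (x * K - C * x / Real.log x ^ 3) / Real.log x := by
        gcongr
      have k7 : (x * K - x * K / 4) / Real.log x = x * K / (4 * Real.log x) +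
          x * K / (2 * Real.log x) := by
        field_simp
        ring
      linarith
    refine le_trans ?_ k5
    calc c * x / (8 * Real.log x ^ 2) = x * (c / (2 * Real.log x)) / (4 * Real.log x) := by
          field_simp
          ring
      _ ≤ x * K / (4 * Real.log x) := by gcongr
  -- from pairs to primes
  obtain ⟨T, hT⟩ : ∃ T : Finset ℕ, T = (Icc 1 x).filter
    (fun p => p.Prime ∧ a * w ≤ (sPart S (p - 1) : ℝ)) := ⟨_, rfl⟩
  have hGT : ∀ q ∈ Q, Gd q ⊆ T := by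
    intro q hq p hp
    rw [hGd, mem_filter] at hp
    obtain ⟨hp1, r, hr, hrd⟩ := hp
    obtain ⟨k1, k2, k3, k4⟩ := hQm q hq
    obtain ⟨m1, m2, m3, m4, m5⟩ := mem_Pq k1.one_lt hp1
    rw [hT, mem_filter, mem_Icc]
    refine ⟨⟨m2.one_le, m1⟩, m2, ?_⟩
    obtain ⟨r1, r2, r3⟩ := hRm r hr
    have k5 : q * r ≤ sPart S (p - 1) := by
      apply le_sPart
      · have := m2.one_lt
        omega
      · obtain ⟨s, hs⟩ := hrd
        refine ⟨s, ?_⟩
        rw [mul_assoc, ← hs]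
        omega
      · intro p' hp' hd
        rcases (Nat.Prime.dvd_mul hp').1 hd with h | h
        · rw [(Nat.prime_dvd_prime_iff_eq hp' k1).1 h]
          exact k2
        · rw [(Nat.prime_dvd_prime_iff_eq hp' r1).1 h]
          exact r2
    calc a * w ≤ q * r := by gcongr
      _ ≤ (sPart S (p - 1) : ℝ) := by exact_mod_cast k5
  have hcount : ∑ q ∈ Q, ((Gd q).card : ℝ) ≤ T.card * (2 * Real.log x) := by
    have k1 : ∑ q ∈ Q, ((Gd q).card : ℝ) = ∑ p ∈ T, ((Q.filter (fun q => p ∈ Gd q)).card : ℝ) := by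
      have k2 : ∀ q ∈ Q, ((Gd q).card : ℝ) = ∑ p ∈ T, (if p ∈ Gd q then (1 : ℝ) else 0) := by
        intro q hq
        rw [Finset.sum_boole]
        congr 2
        ext p
        rw [mem_filter]
        exact ⟨fun h => ⟨hGT q hq h, h⟩, fun h => h.2⟩
      rw [Finset.sum_congr rfl k2, Finset.sum_comm]
      refine Finset.sum_congr rfl (fun p _ => ?_)
      rw [Finset.sum_boole]
    rw [k1, ← nsmul_eq_mul]
    refine Finset.sum_le_card_nsmul _ _ _ (fun p hp => ?_)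
    rw [hT, mem_filter, mem_Icc] at hp
    obtain ⟨⟨p1, p2⟩, p3, _⟩ := hp
    have p4 : p - 1 ≠ 0 := by
      have := p3.one_lt
      omega
    refine le_trans ?_ (card_primeFactors_le p4 (by omega : p - 1 ≤ x))
    have k3 : (Q.filter (fun q => p ∈ Gd q)).card ≤ (p - 1).primeFactors.card := by
      refine Finset.card_le_card (fun q hq => ?_)
      obtain ⟨q1, q2⟩ := mem_filter.1 hq
      rw [hGd, mem_filter] at q2
      obtain ⟨_, _, m3, _, _⟩ := mem_Pq (hQm q q1).1.one_lt q2.1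
      exact Nat.mem_primeFactors.2 ⟨(hQm q q1).1, m3, p4⟩
    exact_mod_cast k3
  have hTl : c * x / (16 * Real.log x ^ 3) ≤ (T.card : ℝ) := by
    have k1 : c * x / (8 * Real.log x ^ 2) ≤ T.card * (2 * Real.log x) := hgood.trans hcount
    have k2 : c * x / (8 * Real.log x ^ 2) = c * x / (16 * Real.log x ^ 3) * (2 * Real.log x) := by
      field_simp
      ring
    rw [k2] at k1
    exact le_of_mul_le_mul_right k1 (by positivity)
  calc c / 16 * (x : ℝ) ^ (3 / 2 + ε) / Real.log x ^ 3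
      = c * x / (16 * Real.log x ^ 3) * (a * w) := by
        have k1 : (x : ℝ) * (a * w) = (x : ℝ) ^ (3 / 2 + ε) := by
          rw [ha, hw, ← Real.rpow_add hx0]
          nth_rewrite 1 [← Real.rpow_one (x : ℝ)]
          rw [← Real.rpow_add hx0]
          congr 1
          ring
        rw [← k1]
        field_simp
    _ ≤ T.card * (a * w) := by gcongr
    _ = ∑ p ∈ T, a * w := by rw [Finset.sum_const, nsmul_eq_mul]
    _ ≤ ∑ p ∈ T, (sPart S (p - 1) : ℝ) := by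
        refine Finset.sum_le_sum (fun p hp => ?_)
        rw [hT, mem_filter] at hp
        exact hp.2.2
    _ ≤ ∑ p ∈ (Icc 1 x).filter Nat.Prime, (sPart S (p - 1) : ℝ) := by
        refine Finset.sum_le_sum_of_subset_of_nonneg ?_ (fun _ _ _ => Nat.cast_nonneg _)
        intro p hp
        rw [hT, mem_filter] at hp
        exact mem_filter.2 ⟨hp.1, hp.2.1⟩

end Pool.Agent.helper59.WA
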