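import Pool.Agent.helper24.BV.LogTrick
import Pool.Agent.helper24.BV.LLow
import Pool.Agent.helper24.BV.Recur

/-!
# The prime number theorem for a fixed nonprincipal character (helper59, MP_fda282_nt)

The proof is the proof of `BVM.SW` (helper24); for a fixed character the hypothesis `Good` is replaced by
the nonvanishing of `L(σ, χ)` on the compact interval `[1, 2]`.
-/

open Finset ArithmeticFunction Complex

namespace BVM

private theorem SWfix_ell {B N : ℕ} {l : ℝ} (hl : 1 ≤ l) (hN : N ≠ 0) {q : ℕ} (hq : 1 ≤ q)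
    (hqB : (q : ℝ) ≤ l ^ B) {ξ : ℝ} (hξ : |ξ| ≤ l ^ N) :
    ell q ξ ≤ ((B + N : ℕ) : ℝ) * Real.log (l + 2) := by
  have hq' : (1 : ℝ) ≤ q := by exact_mod_cast hq
  have h1 : (q : ℝ) * (|ξ| + 2) ≤ (l + 2) ^ (B + N) := by
    rw [pow_add]
    have h2 : (q : ℝ) ≤ (l + 2) ^ B :=
      hqB.trans (pow_le_pow_left₀ (by linarith) (by linarith) B)
    have h3 : |ξ| + 2 ≤ (l + 2) ^ N := by
      have h4 := pow_add_pow_le (x := l) (y := (2 : ℝ)) (by linarith) (by norm_num) hN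
      have h5 : (2 : ℝ) ≤ 2 ^ N := by
        calc (2 : ℝ) = 2 ^ 1 := (pow_one 2).symm
          _ ≤ 2 ^ N := pow_le_pow_right₀ (by norm_num) (Nat.one_le_iff_ne_zero.2 hN)
      linarith
    exact mul_le_mul h2 h3 (by positivity) (by positivity)
  unfold ell
  have h6 := Real.log_le_log (by positivity) h1
  rw [Real.log_pow] at h6
  exact h6

private theorem SWfix_pow (N : ℕ) {l : ℝ} (hl : 1 ≤ l) :
    Real.log (l + 2) ^ N ≤ 3 * (N.factorial : ℝ) * l := by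
  have h0 : 0 ≤ Real.log (l + 2) := Real.log_nonneg (by linarith)
  have h1 := Real.pow_div_factorial_le_exp (Real.log (l + 2)) h0 N
  rw [Real.exp_log (by linarith), div_le_iff₀ (by positivity)] at h1
  have h2 : (0 : ℝ) < N.factorial := by positivity
  nlinarith

/-- `L(σ, χ)` is bounded away from `0` on `(1, 2]`. -/
theorem SWfix_low {q : ℕ} [NeZero q] (χ : DirichletCharacter ℂ q) (hχ : χ ≠ 1) :
    ∃ κ : ℝ, 0 < κ ∧ ∀ σ : ℝ, 1 < σ → σ ≤ 2 →
      κ ≤ ‖LSeries (fun n => χ (n : ZMod q)) (σ : ℂ)‖ := by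
  have hc : Continuous fun σ : ℝ => ‖DirichletCharacter.LFunction χ (σ : ℂ)‖ :=
    ((DirichletCharacter.differentiable_LFunction hχ).continuous.comp
      Complex.continuous_ofReal).norm
  obtain ⟨σ₀, hσ₀, hmin⟩ := (isCompact_Icc (a := (1 : ℝ)) (b := 2)).exists_isMinOn
    ⟨1, by norm_num⟩ hc.continuousOn
  refine ⟨‖DirichletCharacter.LFunction χ (σ₀ : ℂ)‖, ?_, fun σ h1 h2 => ?_⟩
  · rw [norm_pos_iff]
    exact DirichletCharacter.LFunction_ne_zero_of_one_le_re χ (Or.inl hχ) (by simpa using hσ₀.1)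
  · have h3 := hmin (Set.mem_Icc.2 ⟨h1.le, h2⟩)
    have h4 : DirichletCharacter.LFunction χ (σ : ℂ) = LSeries (fun n => χ (n : ZMod q)) (σ : ℂ) :=
      DirichletCharacter.LFunction_eq_LSeries χ (by simpa using h1)
    rw [← h4]
    exact h3

/-- The prime number theorem for a fixed nonprincipal character. -/
theorem SWfix (A : ℕ) {q : ℕ} [NeZero q] (χ : DirichletCharacter ℂ q) (hχ1 : χ ≠ 1) :
    ∃ C x₀ : ℝ, 3 ≤ x₀ ∧ ∀ x : ℝ, x₀ ≤ x → ∀ y : ℕ, (y : ℝ) ≤ x →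
      ‖psiChi χ y‖ ≤ C * x / Real.log x ^ A := by
  obtain ⟨B, hB⟩ : ∃ B : ℕ, B = 1 := ⟨1, rfl⟩
  obtain ⟨κ₀, hκ₀, hlow0⟩ := SWfix_low χ hχ1
  obtain ⟨C0, hC0, htrick⟩ := log_trick (A + 1)
  obtain ⟨C1, hC1, hUp⟩ := LUp
  obtain ⟨c, hc, hLow⟩ := LLow
  obtain ⟨k, hk⟩ : ∃ k : ℕ, k = A + 1 := ⟨_, rfl⟩
  rw [← hk] at htrick
  have hk1 : 1 ≤ k := by omega
  obtain ⟨c', hc'⟩ : ∃ c' : ℝ, c' = min c 1 := ⟨_, rfl⟩
  have hc'0 : 0 < c' := by rw [hc']; exact lt_min hc one_pos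
  have hc'c : c' ≤ c := by rw [hc']; exact min_le_left _ _
  have hc'1 : c' ≤ 1 := by rw [hc']; exact min_le_right _ _
  obtain ⟨D, hD⟩ : ∃ D : ℝ, D = ((B + (8 * k + 2) : ℕ) : ℝ) := ⟨_, rfl⟩
  have hD0 : 0 ≤ D := by rw [hD]; positivity
  obtain ⟨K0, hK0⟩ : ∃ K0 : ℝ, K0 = ((8 * k).factorial : ℝ) * ((8 * C1 / c') ^ (8 * k + 1) *
      (D ^ (11 * (8 * k + 1)) * (3 * ((11 * (8 * k + 1)).factorial : ℝ)))) := ⟨_, rfl⟩
  refine ⟨C0 * max 1 K0, max 3 (max (Real.exp q) (Real.exp (1 / κ₀ ^ 2))), le_max_left _ _,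
    fun x hx' y hy => ?_⟩
  have hx : 3 ≤ x := (le_max_left _ _).trans hx'
  have hxq : Real.exp q ≤ x := (le_max_left _ _).trans ((le_max_right _ _).trans hx')
  have hxκ : Real.exp (1 / κ₀ ^ 2) ≤ x := (le_max_right _ _).trans ((le_max_right _ _).trans hx')
  have hq : 1 ≤ q := Nat.one_le_iff_ne_zero.2 (NeZero.ne q)
  have hqB : (q : ℝ) ≤ Real.log x ^ B := by
    rw [hB, pow_one, Real.le_log_iff_exp_le (by linarith)]
    exact hxq
  obtain ⟨l, hl⟩ : ∃ l : ℝ, l = Real.log x := ⟨_, rfl⟩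
  have hl1 : 1 ≤ l := by
    rw [hl, Real.le_log_iff_exp_le (by linarith)]
    have := Real.exp_one_lt_d9
    linarith
  have hl0 : 0 < l := by linarith
  rw [← hl] at hqB ⊢
  obtain ⟨κ, hκ⟩ : ∃ κ : ℝ, κ = 1 / Real.sqrt l := ⟨_, rfl⟩
  have hsq1 : 1 ≤ Real.sqrt l := Real.one_le_sqrt.2 hl1
  have hκ0 : 0 < κ := by rw [hκ]; positivity
  have hκ1 : κ ≤ 1 := by rw [hκ, div_le_one (by positivity)]; exact hsq1
  have hreal : χ ^ 2 = 1 → ∀ σ : ℝ, 1 < σ → σ ≤ 2 →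
      κ ≤ ‖LSeries (fun n => χ (n : ZMod q)) (σ : ℂ)‖ := by
    intro _ σ hσ1 hσ2
    refine le_trans ?_ (hlow0 σ hσ1 hσ2)
    rw [hκ, div_le_iff₀ (Real.sqrt_pos.2 hl0)]
    have h3 : 1 / κ₀ ^ 2 ≤ l := by
      rw [hl, Real.le_log_iff_exp_le (by linarith)]
      exact hxκ
    have h4 : 1 / κ₀ ≤ Real.sqrt l := by
      apply Real.le_sqrt_of_sq_le
      rw [div_pow, one_pow]
      exact h3
    rw [div_le_iff₀ hκ₀] at h4
    linarith
  have hq3 : 3 ≤ q := three_le_of_ne_one hχ1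
  -- the bound on the line
  have hline : ∀ ξ : ℝ, |ξ| ≤ l ^ (8 * k + 2) →
      ‖LSeries (fun n => (((vonMangoldt n : ℝ) : ℂ) * χ (n : ZMod q)) *
        ((Real.log n : ℝ) : ℂ) ^ (8 * k)) (((1 + 1 / l : ℝ) : ℂ) + ξ * I)‖ ≤
        max 1 K0 * l ^ (6 * k + 1) := by
    intro ξ hξ
    obtain ⟨s, hs⟩ : ∃ s : ℂ, s = ((1 + 1 / l : ℝ) : ℂ) + ξ * I := ⟨_, rfl⟩
    have hre : s.re = 1 + 1 / l := by rw [hs]; simp
    have him : s.im = ξ := by rw [hs]; simp
    have hre1 : 1 < s.re := by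
      rw [hre]
      have : 0 < 1 / l := by positivity
      linarith
    have hre2 : s.re ≤ 2 := by
      rw [hre]
      have : 1 / l ≤ 1 := by rw [div_le_one hl0]; exact hl1
      linarith
    rw [← hs]
    obtain ⟨e, he⟩ : ∃ e : ℝ, e = ell q ξ := ⟨_, rfl⟩
    have he1 : 1 ≤ e := by rw [he]; exact one_le_ell hq3 ξ
    have he0 : 0 < e := by linarith
    have heD : e ≤ D * Real.log (l + 2) := by
      rw [he, hD]
      exact SWfix_ell hl1 (by omega) hq hqB hξ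
    have hi : ∀ i : ℕ, ‖LSeries (fun n => χ (n : ZMod q) * ((Real.log n : ℝ) : ℂ) ^ i) s‖ ≤
        (C1 * e) * i.factorial * (2 * e) ^ i := by
      intro i
      have h1 := hUp q χ hχ1 i s hre1 hre2
      rw [him, ← he] at h1
      calc _ ≤ C1 * i.factorial * (2 * e) ^ i * e := h1
        _ = _ := by ring
    have hlow := hLow q χ hχ1 κ hκ0 hκ1 hreal s hre1 hre2
    rw [him, ← he] at hlow
    have hm : c' * κ / e ^ 9 ≤ ‖LSeries (fun n => χ (n : ZMod q)) s‖ := by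
      refine le_trans ?_ hlow
      gcongr
    have hmM : c' * κ / e ^ 9 ≤ C1 * e := by
      have h1 : c' * κ / e ^ 9 ≤ 1 := by
        rw [div_le_one (by positivity)]
        calc c' * κ ≤ 1 * 1 := mul_le_mul hc'1 hκ1 hκ0.le zero_le_one
          _ = 1 := one_mul 1
          _ ≤ e ^ 9 := one_le_pow₀ he1
      have h2 : 1 ≤ C1 * e := by nlinarith
      linarith
    have hmain := logderiv_bound χ s hre1 (C1 * e) (2 * e) (c' * κ / e ^ 9) (by positivity) hmM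
      (by positivity) hm hi (8 * k)
    refine hmain.trans ?_
    have h3 : 4 * (2 * e) * (C1 * e) / (c' * κ / e ^ 9) =
        8 * C1 / c' * (e ^ 11 * Real.sqrt l) := by
      rw [hκ]
      have hs0 : Real.sqrt l ≠ 0 := by positivity
      field_simp
      ring
    rw [h3, mul_pow, mul_pow, ← pow_mul]
    have h4 : Real.sqrt l ^ (8 * k + 1) ≤ l ^ (4 * k + 1) := by
      have h5 : Real.sqrt l ^ (8 * k + 2) = l ^ (4 * k + 1) := by
        have h6 : 8 * k + 2 = 2 * (4 * k + 1) := by ring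
        rw [h6, pow_mul, Real.sq_sqrt hl0.le]
      rw [← h5]
      exact pow_le_pow_right₀ hsq1 (by omega)
    have h7 : e ^ (11 * (8 * k + 1)) ≤
        D ^ (11 * (8 * k + 1)) * (3 * ((11 * (8 * k + 1)).factorial : ℝ) * l) := by
      calc e ^ (11 * (8 * k + 1)) ≤ (D * Real.log (l + 2)) ^ (11 * (8 * k + 1)) :=
            pow_le_pow_left₀ he0.le heD _
        _ = D ^ (11 * (8 * k + 1)) * Real.log (l + 2) ^ (11 * (8 * k + 1)) := mul_pow _ _ _
        _ ≤ _ := mul_le_mul_of_nonneg_left (SWfix_pow _ hl1) (pow_nonneg hD0 _)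
    have h8 : (0 : ℝ) ≤ 8 * C1 / c' := by positivity
    calc ((8 * k).factorial : ℝ) * ((8 * C1 / c') ^ (8 * k + 1) *
          (e ^ (11 * (8 * k + 1)) * Real.sqrt l ^ (8 * k + 1)))
        ≤ ((8 * k).factorial : ℝ) * ((8 * C1 / c') ^ (8 * k + 1) *
          ((D ^ (11 * (8 * k + 1)) * (3 * ((11 * (8 * k + 1)).factorial : ℝ) * l)) *
            l ^ (4 * k + 1))) := by
          gcongr
      _ = K0 * l ^ (4 * k + 2) := by
          rw [hK0]
          ring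
      _ ≤ max 1 K0 * l ^ (4 * k + 2) := by
          gcongr
          exact le_max_right _ _
      _ ≤ max 1 K0 * l ^ (6 * k + 1) :=
          mul_le_mul_of_nonneg_left (pow_le_pow_right₀ hl1 (by omega))
            (le_trans zero_le_one (le_max_left _ _))
  have hb : ∀ n : ℕ, 1 ≤ n → ‖((vonMangoldt n : ℝ) : ℂ) * χ (n : ZMod q)‖ ≤
      1 + Real.log n := by
    intro n hn
    rw [norm_mul, Complex.norm_real, Real.norm_eq_abs, abs_of_nonneg vonMangoldt_nonneg]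
    have h1 : vonMangoldt n ≤ Real.log n := vonMangoldt_le_log
    have h2 : ‖χ (n : ZMod q)‖ ≤ 1 := DirichletCharacter.norm_le_one χ _
    have h3 : 0 ≤ Real.log n := Real.log_natCast_nonneg n
    calc vonMangoldt n * ‖χ (n : ZMod q)‖ ≤ Real.log n * 1 :=
          mul_le_mul h1 h2 (norm_nonneg _) h3
      _ ≤ 1 + Real.log n := by linarith
  have hfin := htrick (fun n => ((vonMangoldt n : ℝ) : ℂ) * χ (n : ZMod q)) x (max 1 K0) hx
    (le_max_left _ _) hb (by rw [← hl]; exact hline) y hy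
  rw [← hl] at hfin
  unfold psiChi
  refine hfin.trans (le_of_eq ?_)
  rw [hk, pow_succ]
  field_simp

end BVM
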