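import Pool.Agent.helper59.WA.Cnt

/-!
# MP_fda282_nt (helper59): primes `q n + 1` such that `n` has no prime factor in a given set
-/

set_option autoImplicit false

open Finset Nat Real
open scoped ArithmeticFunction.Moebius

namespace Pool.Agent.helper59.WA

open Pool.Agent.helper91.BT

/-- the weighted number of `n ≤ N` which are divisible by `m` -/
noncomputable def SS (z q N m : ℕ) : ℝ := ∑ n ∈ (Ioc 0 N).filter (fun n => m ∣ n), W z (q * n + 1)

theorem SS_eq (z q N m : ℕ) :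
    SS z q N m = ∑ x ∈ D z ×ˢ D z, lam z x.1 * lam z x.2 * (cnt q N m (Nat.lcm x.1 x.2) : ℝ) := by
  have h1 : ∀ n, W z n = ∑ x ∈ D z ×ˢ D z,
      lam z x.1 * lam z x.2 * (if Nat.lcm x.1 x.2 ∣ n then 1 else 0) := by
    intro n
    unfold W
    rw [sq, Finset.sum_filter, Finset.sum_mul_sum, Finset.sum_product]
    refine Finset.sum_congr rfl (fun d _ => Finset.sum_congr rfl (fun e _ => ?_))
    by_cases ha : d ∣ n <;> by_cases hb : e ∣ n <;> simp [ha, hb, Nat.lcm_dvd_iff]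
  unfold SS
  simp_rw [h1]
  rw [Finset.sum_comm]
  refine Finset.sum_congr rfl (fun x _ => ?_)
  rw [← Finset.mul_sum]
  congr 1
  rw [Finset.sum_boole, Finset.filter_filter]
  rfl

theorem coprime_lcm {z q : ℕ} (hq : q.Prime) (hzq : z < q) {x : ℕ × ℕ} (hx : x ∈ D z ×ˢ D z) :
    Nat.Coprime q (Nat.lcm x.1 x.2) := by
  obtain ⟨h1, h2⟩ := mem_product.1 hx
  have h3 := (mem_D.1 h1).1
  have h4 := (mem_D.1 h2).1
  have h5 : Nat.Coprime q x.1 := (Nat.Prime.coprime_iff_not_dvd hq).2 (fun h => by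
    have := Nat.le_of_dvd h3.1 h
    omega)
  have h6 : Nat.Coprime q x.2 := (Nat.Prime.coprime_iff_not_dvd hq).2 (fun h => by
    have := Nat.le_of_dvd h4.1 h
    omega)
  exact Nat.Coprime.coprime_dvd_right (Nat.lcm_dvd_mul x.1 x.2) (Nat.Coprime.mul_right h5 h6)

theorem SS_bound {z q N m : ℕ} (hz : 1 ≤ z) (hq : q.Prime) (hzq : z < q) (hm : 0 < m) {w : ℝ}
    (hw : 0 < w) (hp : ∀ p, p.Prime → p ∣ m → w ≤ p) (hc : m.primeFactors.card ≤ 2) :
    |SS z q N m - N / m / G z| ≤ (z : ℝ) ^ 2 + N / m * (6 * Hs z ^ 3 / w) := by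
  classical
  have hG := G_pos hz
  have hH := Hs_nonneg z
  have hm' : (0 : ℝ) < m := by exact_mod_cast hm
  have hquad : ∑ x ∈ D z ×ˢ D z, lam z x.1 * lam z x.2 / (Nat.lcm x.1 x.2 : ℝ) = 1 / G z := by
    rw [Finset.sum_product]
    exact quad_form hz
  have h1 : SS z q N m - N / m / G z = ∑ x ∈ D z ×ˢ D z, lam z x.1 * lam z x.2 *
      ((cnt q N m (Nat.lcm x.1 x.2) : ℝ) - N / (m * Nat.lcm x.1 x.2 : ℕ)) := by
    have h2 : (N : ℝ) / m / G z = N / m * (1 / G z) := by ring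
    rw [SS_eq, h2, ← hquad, Finset.mul_sum, ← Finset.sum_sub_distrib]
    refine Finset.sum_congr rfl (fun x hx => ?_)
    obtain ⟨k1, k2⟩ := mem_product.1 hx
    have h3 : (0 : ℝ) < (Nat.lcm x.1 x.2 : ℝ) := by
      exact_mod_cast Nat.lcm_pos (mem_D.1 k1).1.1 (mem_D.1 k2).1.1
    push_cast
    field_simp
  have hterm : ∀ x ∈ D z ×ˢ D z, |lam z x.1 * lam z x.2 *
      ((cnt q N m (Nat.lcm x.1 x.2) : ℝ) - N / (m * Nat.lcm x.1 x.2 : ℕ))| ≤
      1 + N / m * ∑ p ∈ m.primeFactors, (if p ∣ Nat.lcm x.1 x.2 then 1 / (Nat.lcm x.1 x.2 : ℝ)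
        else 0) := by
    intro x hx
    obtain ⟨k1, k2⟩ := mem_product.1 hx
    have hl : 0 < Nat.lcm x.1 x.2 := Nat.lcm_pos (mem_D.1 k1).1.1 (mem_D.1 k2).1.1
    have hl' : (0 : ℝ) < (Nat.lcm x.1 x.2 : ℝ) := by exact_mod_cast hl
    have hsn : 0 ≤ ∑ p ∈ m.primeFactors, (if p ∣ Nat.lcm x.1 x.2 then
        1 / (Nat.lcm x.1 x.2 : ℝ) else 0) :=
      Finset.sum_nonneg (fun p _ => by split_ifs <;> positivity)
    rw [abs_mul, abs_mul]
    have h2 : |lam z x.1| * |lam z x.2| ≤ 1 := by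
      calc |lam z x.1| * |lam z x.2| ≤ 1 * 1 := by
            gcongr
            · exact abs_lam_le_one hz k1
            · exact abs_lam_le_one hz k2
        _ = 1 := one_mul 1
    have h3 : |(cnt q N m (Nat.lcm x.1 x.2) : ℝ) - N / (m * Nat.lcm x.1 x.2 : ℕ)| ≤
        1 + N / m * ∑ p ∈ m.primeFactors, (if p ∣ Nat.lcm x.1 x.2 then
          1 / (Nat.lcm x.1 x.2 : ℝ) else 0) := by
      by_cases hcop : Nat.Coprime m (Nat.lcm x.1 x.2)
      · refine (cnt_coprime hm hl hcop (coprime_lcm hq hzq hx)).trans ?_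
        have : 0 ≤ (N : ℝ) / m * ∑ p ∈ m.primeFactors, (if p ∣ Nat.lcm x.1 x.2 then
            1 / (Nat.lcm x.1 x.2 : ℝ) else 0) := mul_nonneg (by positivity) hsn
        linarith
      · rw [cnt_not_coprime hcop]
        obtain ⟨p, hp1, hp2, hp3⟩ := Nat.Prime.not_coprime_iff_dvd.1 hcop
        have h4 : 1 / (Nat.lcm x.1 x.2 : ℝ) ≤ ∑ p ∈ m.primeFactors, (if p ∣ Nat.lcm x.1 x.2 then
            1 / (Nat.lcm x.1 x.2 : ℝ) else 0) := by
          have h5 := Finset.single_le_sum (f := fun p => if p ∣ Nat.lcm x.1 x.2 then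
            1 / (Nat.lcm x.1 x.2 : ℝ) else 0) (s := m.primeFactors)
            (fun p _ => by split_ifs <;> positivity)
            (Nat.mem_primeFactors.2 ⟨hp1, hp2, hm.ne'⟩)
          rw [if_pos hp3] at h5
          exact h5
        have h6 : |((0 : ℕ) : ℝ) - N / (m * Nat.lcm x.1 x.2 : ℕ)| =
            N / m * (1 / (Nat.lcm x.1 x.2 : ℝ)) := by
          push_cast
          rw [zero_sub, abs_neg, abs_of_nonneg (by positivity)]
          field_simp
        rw [h6]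
        have h7 : (N : ℝ) / m * (1 / (Nat.lcm x.1 x.2 : ℝ)) ≤ N / m *
            ∑ p ∈ m.primeFactors, (if p ∣ Nat.lcm x.1 x.2 then
              1 / (Nat.lcm x.1 x.2 : ℝ) else 0) := by gcongr
        linarith
    calc |lam z x.1| * |lam z x.2| *
          |(cnt q N m (Nat.lcm x.1 x.2) : ℝ) - N / (m * Nat.lcm x.1 x.2 : ℕ)|
        ≤ 1 * |(cnt q N m (Nat.lcm x.1 x.2) : ℝ) - N / (m * Nat.lcm x.1 x.2 : ℕ)| := by gcongr
      _ ≤ _ := by rw [one_mul]; exact h3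
  have hsum : ∑ x ∈ D z ×ˢ D z, ∑ p ∈ m.primeFactors, (if p ∣ Nat.lcm x.1 x.2 then
      1 / (Nat.lcm x.1 x.2 : ℝ) else 0) ≤ 6 * Hs z ^ 3 / w := by
    rw [Finset.sum_comm]
    calc ∑ p ∈ m.primeFactors, ∑ x ∈ D z ×ˢ D z, (if p ∣ Nat.lcm x.1 x.2 then
          1 / (Nat.lcm x.1 x.2 : ℝ) else 0)
        ≤ ∑ p ∈ m.primeFactors, 3 * Hs z ^ 3 / w := by
          refine Finset.sum_le_sum (fun p hpm => ?_)
          have hpp := Nat.prime_of_mem_primeFactors hpm
          rw [← Finset.sum_filter]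
          refine (lcm_sum hpp).trans ?_
          have h8 := hp p hpp (Nat.dvd_of_mem_primeFactors hpm)
          gcongr
      _ = m.primeFactors.card * (3 * Hs z ^ 3 / w) := by
          rw [Finset.sum_const, nsmul_eq_mul]
      _ ≤ 2 * (3 * Hs z ^ 3 / w) := by
          have : (m.primeFactors.card : ℝ) ≤ 2 := by exact_mod_cast hc
          gcongr
      _ = 6 * Hs z ^ 3 / w := by ring
  have hcard : ((D z ×ˢ D z).card : ℝ) ≤ (z : ℝ) ^ 2 := by
    rw [Finset.card_product]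
    have h9 : (D z).card ≤ z := by
      calc (D z).card ≤ (Finset.Icc 1 z).card := Finset.card_filter_le _ _
        _ = z := by simp
    have h10 : (D z).card * (D z).card ≤ z * z := Nat.mul_le_mul h9 h9
    have h11 : (((D z).card * (D z).card : ℕ) : ℝ) ≤ ((z * z : ℕ) : ℝ) := by exact_mod_cast h10
    rw [sq]
    push_cast at h11 ⊢
    exact h11
  rw [h1]
  refine (Finset.abs_sum_le_sum_abs _ _).trans ((Finset.sum_le_sum hterm).trans ?_)
  rw [Finset.sum_add_distrib, ← Finset.mul_sum, Finset.sum_const, nsmul_eq_mul, mul_one]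
  gcongr

theorem lcm_factors {r s : ℕ} (hr : r.Prime) (hs : s.Prime) :
    (Nat.lcm r s).primeFactors.card ≤ 2 ∧ ∀ p, p.Prime → p ∣ Nat.lcm r s → p = r ∨ p = s := by
  have h1 : ∀ p, p.Prime → p ∣ Nat.lcm r s → p = r ∨ p = s := by
    intro p hp h
    rcases (Nat.Prime.dvd_mul hp).1 (h.trans (Nat.lcm_dvd_mul r s)) with h2 | h2
    · exact Or.inl ((Nat.prime_dvd_prime_iff_eq hp hr).1 h2)
    · exact Or.inr ((Nat.prime_dvd_prime_iff_eq hp hs).1 h2)
  refine ⟨?_, h1⟩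
  have h2 : (Nat.lcm r s).primeFactors ⊆ {r, s} := by
    intro p hp
    have := h1 p (Nat.prime_of_mem_primeFactors hp) (Nat.dvd_of_mem_primeFactors hp)
    rw [mem_insert, mem_singleton]
    exact this
  exact (Finset.card_le_card h2).trans Finset.card_le_two

theorem bad_le {z q N : ℕ} (hz : 1 ≤ z) (hq : q.Prime) (hzq : z < q) {w : ℝ} (hw : 0 < w)
    {R : Finset ℕ} (hR : ∀ r ∈ R, r.Prime ∧ w ≤ r) {V : ℝ} (hVR : V = ∑ r ∈ R, 1 / (r : ℝ))
    (hV : 1 ≤ V) :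
    (((Ioc 0 N).filter (fun n => (q * n + 1).Prime ∧ ∀ r ∈ R, ¬ r ∣ n)).card : ℝ) ≤
      N / (G z * V) + 30 * N * Hs z ^ 3 / w + (z : ℝ) ^ 2 * (R.card + 1) ^ 2 := by
  classical
  have hG := G_pos hz
  have hH := Hs_nonneg z
  obtain ⟨κ, hκ⟩ : ∃ κ : ℝ, κ = 6 * Hs z ^ 3 / w := ⟨_, rfl⟩
  have hκ0 : 0 ≤ κ := by rw [hκ]; positivity
  obtain ⟨ν, hν⟩ : ∃ ν : ℕ → ℝ, ∀ n, ν n = ∑ r ∈ R, (if r ∣ n then 1 else 0) := ⟨_, fun _ => rfl⟩
  have hS1 : SS z q N 1 ≤ N / G z + (z : ℝ) ^ 2 + N * κ := by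
    have h1 := SS_bound (N := N) hz hq hzq one_pos hw
      (fun p hp h => absurd (Nat.dvd_one.1 h) hp.one_lt.ne') (by simp)
    rw [← hκ] at h1
    have h2 := (abs_le.1 h1).2
    push_cast at h2
    rw [div_one] at h2
    linarith
  have hSr : ∀ r ∈ R, N / G z * (1 / r) - (z : ℝ) ^ 2 - N * κ * (1 / r) ≤ SS z q N r := by
    intro r hr
    have hrp := (hR r hr).1
    have hr0 : (0 : ℝ) < r := by exact_mod_cast hrp.pos
    have h1 := SS_bound (N := N) hz hq hzq hrp.pos hw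
      (fun p hp h => by
        rw [(Nat.prime_dvd_prime_iff_eq hp hrp).1 h]
        exact (hR r hr).2)
      (by rw [hrp.primeFactors, Finset.card_singleton]; norm_num)
    rw [← hκ] at h1
    have h2 := (abs_le.1 h1).1
    have h3 : (N : ℝ) / G z * (1 / r) = N / r / G z := by field_simp
    have h4 : (N : ℝ) * κ * (1 / r) = N / r * κ := by field_simp
    rw [h3, h4]
    linarith
  have hSrs : ∀ r ∈ R, ∀ s ∈ R, SS z q N (Nat.lcm r s) ≤
      (N / G z + N * κ) * (1 / (Nat.lcm r s : ℝ)) + (z : ℝ) ^ 2 := by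
    intro r hr s hs
    have hrp := (hR r hr).1
    have hsp := (hR s hs).1
    have hl : 0 < Nat.lcm r s := Nat.lcm_pos hrp.pos hsp.pos
    have hl' : (0 : ℝ) < (Nat.lcm r s : ℝ) := by exact_mod_cast hl
    have h1 := SS_bound (N := N) hz hq hzq hl hw
      (fun p hp h => by
        rcases (lcm_factors hrp hsp).2 p hp h with h2 | h2
        · rw [h2]; exact (hR r hr).2
        · rw [h2]; exact (hR s hs).2)
      (lcm_factors hrp hsp).1
    rw [← hκ] at h1
    have h2 := (abs_le.1 h1).2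
    have h3 : (N / G z + N * κ) * (1 / (Nat.lcm r s : ℝ)) =
        N / Nat.lcm r s / G z + N / Nat.lcm r s * κ := by field_simp
    rw [h3]
    linarith
  have hlcm : ∑ r ∈ R, ∑ s ∈ R, 1 / (Nat.lcm r s : ℝ) ≤ V ^ 2 + V := by
    have h1 : ∀ r ∈ R, ∀ s ∈ R, 1 / (Nat.lcm r s : ℝ) ≤
        1 / (r : ℝ) * (1 / (s : ℝ)) + (if r = s then 1 / (r : ℝ) else 0) := by
      intro r hr s hs
      have hr0 : (0 : ℝ) < r := by exact_mod_cast (hR r hr).1.pos
      have hs0 : (0 : ℝ) < s := by exact_mod_cast (hR s hs).1.pos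
      by_cases hrs : r = s
      · rw [if_pos hrs, hrs, Nat.lcm_self]
        have : 0 ≤ 1 / (s : ℝ) * (1 / (s : ℝ)) := by positivity
        linarith
      · rw [if_neg hrs, add_zero]
        have h2 : Nat.Coprime r s := (Nat.coprime_primes (hR r hr).1 (hR s hs).1).2 hrs
        rw [h2.lcm_eq_mul]
        push_cast
        rw [one_div_mul_one_div]
    calc ∑ r ∈ R, ∑ s ∈ R, 1 / (Nat.lcm r s : ℝ)
        ≤ ∑ r ∈ R, ∑ s ∈ R, (1 / (r : ℝ) * (1 / (s : ℝ)) + (if r = s then 1 / (r : ℝ) else 0)) :=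
          Finset.sum_le_sum (fun r hr => Finset.sum_le_sum (fun s hs => h1 r hr s hs))
      _ = V ^ 2 + V := by
          simp_rw [Finset.sum_add_distrib]
          rw [← Finset.sum_mul_sum, ← hVR, sq]
          congr 1
          rw [hVR]
          refine Finset.sum_congr rfl (fun r hr => ?_)
          rw [Finset.sum_ite_eq, if_pos hr]
  -- expansion of the second moment
  have hexp : ∑ n ∈ Ioc 0 N, W z (q * n + 1) * (ν n - V) ^ 2 =
      ∑ r ∈ R, ∑ s ∈ R, SS z q N (Nat.lcm r s) - 2 * V * ∑ r ∈ R, SS z q N r +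
        V ^ 2 * SS z q N 1 := by
    have e1 : ∑ r ∈ R, SS z q N r = ∑ n ∈ Ioc 0 N, W z (q * n + 1) * ν n := by
      unfold SS
      simp_rw [Finset.sum_filter]
      rw [Finset.sum_comm]
      refine Finset.sum_congr rfl (fun n _ => ?_)
      rw [hν, Finset.mul_sum]
      refine Finset.sum_congr rfl (fun r _ => ?_)
      split_ifs <;> simp
    have e2 : ∑ r ∈ R, ∑ s ∈ R, SS z q N (Nat.lcm r s) =
        ∑ n ∈ Ioc 0 N, W z (q * n + 1) * ν n ^ 2 := by
      unfold SS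
      simp_rw [Finset.sum_filter]
      have e3 : ∀ r ∈ R, ∑ s ∈ R, ∑ n ∈ Ioc 0 N, (if Nat.lcm r s ∣ n then W z (q * n + 1) else 0) =
          ∑ n ∈ Ioc 0 N, ∑ s ∈ R, (if Nat.lcm r s ∣ n then W z (q * n + 1) else 0) :=
        fun r _ => Finset.sum_comm
      rw [Finset.sum_congr rfl e3, Finset.sum_comm]
      refine Finset.sum_congr rfl (fun n _ => ?_)
      rw [sq, hν, Finset.sum_mul_sum, Finset.mul_sum]
      refine Finset.sum_congr rfl (fun r _ => ?_)
      rw [Finset.mul_sum]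
      refine Finset.sum_congr rfl (fun s _ => ?_)
      by_cases ha : r ∣ n <;> by_cases hb : s ∣ n <;> simp [ha, hb, Nat.lcm_dvd_iff]
    have e4 : SS z q N 1 = ∑ n ∈ Ioc 0 N, W z (q * n + 1) := by
      unfold SS
      rw [Finset.filter_true_of_mem (fun n _ => one_dvd n)]
    rw [e1, e2, e4, Finset.mul_sum, Finset.mul_sum, ← Finset.sum_sub_distrib,
      ← Finset.sum_add_distrib]
    refine Finset.sum_congr rfl (fun n _ => ?_)
    ring
  have hub : ∑ n ∈ Ioc 0 N, W z (q * n + 1) * (ν n - V) ^ 2 ≤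
      N / G z * V + N * κ * (4 * V ^ 2 + V) + (z : ℝ) ^ 2 * (R.card + V) ^ 2 := by
    have hN0 : (0 : ℝ) ≤ N / G z + N * κ := by positivity
    have u1 : ∑ r ∈ R, ∑ s ∈ R, SS z q N (Nat.lcm r s) ≤
        (N / G z + N * κ) * (V ^ 2 + V) + (z : ℝ) ^ 2 * R.card ^ 2 := by
      calc ∑ r ∈ R, ∑ s ∈ R, SS z q N (Nat.lcm r s)
          ≤ ∑ r ∈ R, ∑ s ∈ R, ((N / G z + N * κ) * (1 / (Nat.lcm r s : ℝ)) + (z : ℝ) ^ 2) :=
            Finset.sum_le_sum (fun r hr => Finset.sum_le_sum (fun s hs => hSrs r hr s hs))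
        _ = (N / G z + N * κ) * (∑ r ∈ R, ∑ s ∈ R, 1 / (Nat.lcm r s : ℝ)) +
            (z : ℝ) ^ 2 * R.card ^ 2 := by
            simp_rw [Finset.sum_add_distrib, ← Finset.mul_sum, Finset.sum_const, nsmul_eq_mul]
            ring
        _ ≤ _ := by gcongr
    have u2 : (N / G z - N * κ) * V - (z : ℝ) ^ 2 * R.card ≤ ∑ r ∈ R, SS z q N r := by
      calc (N / G z - N * κ) * V - (z : ℝ) ^ 2 * R.card
          = ∑ r ∈ R, (N / G z * (1 / r) - (z : ℝ) ^ 2 - N * κ * (1 / r)) := by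
            rw [Finset.sum_sub_distrib, Finset.sum_sub_distrib, ← Finset.mul_sum,
              ← Finset.mul_sum, ← hVR, Finset.sum_const, nsmul_eq_mul]
            ring
        _ ≤ _ := Finset.sum_le_sum hSr
    have u3 : 2 * V * ((N / G z - N * κ) * V - (z : ℝ) ^ 2 * R.card) ≤
        2 * V * ∑ r ∈ R, SS z q N r := by gcongr
    have u4 : V ^ 2 * SS z q N 1 ≤ V ^ 2 * (N / G z + (z : ℝ) ^ 2 + N * κ) := by gcongr
    rw [hexp]
    nlinarith [u1, u3, u4]
  obtain ⟨Bd, hBd⟩ : ∃ Bd : Finset ℕ, Bd = (Ioc 0 N).filter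
    (fun n => (q * n + 1).Prime ∧ ∀ r ∈ R, ¬ r ∣ n) := ⟨_, rfl⟩
  have hlow : (Bd.card : ℝ) * V ^ 2 ≤ ∑ n ∈ Ioc 0 N, W z (q * n + 1) * (ν n - V) ^ 2 := by
    calc (Bd.card : ℝ) * V ^ 2 = ∑ n ∈ Bd, V ^ 2 := by rw [Finset.sum_const, nsmul_eq_mul]
      _ = ∑ n ∈ Bd, W z (q * n + 1) * (ν n - V) ^ 2 := by
          refine Finset.sum_congr rfl (fun n hn => ?_)
          rw [hBd, mem_filter, mem_Ioc] at hn
          obtain ⟨⟨h1, h2⟩, h3, h4⟩ := hn
          have h5 : z < q * n + 1 := by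
            have := Nat.le_mul_of_pos_right q h1
            omega
          have h6 : ν n = 0 := by
            rw [hν]
            exact Finset.sum_eq_zero (fun r hr => if_neg (h4 r hr))
          rw [W_prime hz h3 h5, h6]
          ring
      _ ≤ _ := by
          refine Finset.sum_le_sum_of_subset_of_nonneg ?_ (fun n _ _ => ?_)
          · rw [hBd]
            exact Finset.filter_subset _ _
          · exact mul_nonneg (W_nonneg _ _) (sq_nonneg _)
  rw [← hBd]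
  have hV0 : 0 < V := by linarith
  have hfin : (Bd.card : ℝ) * V ^ 2 ≤
      (N / (G z * V) + 30 * N * Hs z ^ 3 / w + (z : ℝ) ^ 2 * (R.card + 1) ^ 2) * V ^ 2 := by
    refine hlow.trans (hub.trans ?_)
    have v1 : (N : ℝ) / G z * V = N / (G z * V) * V ^ 2 := by field_simp
    have v2 : (N : ℝ) * κ * (4 * V ^ 2 + V) ≤ 30 * N * Hs z ^ 3 / w * V ^ 2 := by
      have v3 : 4 * V ^ 2 + V ≤ 5 * V ^ 2 := by nlinarith
      calc (N : ℝ) * κ * (4 * V ^ 2 + V) ≤ N * κ * (5 * V ^ 2) := by gcongr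
        _ = 30 * N * Hs z ^ 3 / w * V ^ 2 := by rw [hκ]; ring
    have v4 : (z : ℝ) ^ 2 * (R.card + V) ^ 2 ≤ (z : ℝ) ^ 2 * (R.card + 1) ^ 2 * V ^ 2 := by
      have v5 : (R.card : ℝ) + V ≤ (R.card + 1) * V := by
        have : (0 : ℝ) ≤ R.card := Nat.cast_nonneg _
        nlinarith
      calc (z : ℝ) ^ 2 * (R.card + V) ^ 2 ≤ (z : ℝ) ^ 2 * ((R.card + 1) * V) ^ 2 := by gcongr
        _ = _ := by ring
    rw [add_mul, add_mul]
    linarith
  exact le_of_mul_le_mul_right hfin (by positivity)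

end Pool.Agent.helper59.WA
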